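import Mathlib
import Pool.Agent.W526.LL.Stm

/-! LL-H1: lattice points attached to an element of the adelic group, formal properties. -/

namespace Pool.Agent.W848.LLH1

open IsDedekindDomain WithZero Polynomial
open Pool.Agent.W526.LL

/-- the action of `GL₂(K)` on `K²` -/
noncomputable def act (γ : GL (Fin 2) KK) (x : KK × KK) : KK × KK :=
  (γ 0 0 * x.1 + γ 0 1 * x.2, γ 1 0 * x.1 + γ 1 1 * x.2)

theorem act_one (x : KK × KK) : act 1 x = x := by
  simp [act]

theorem act_mul (γ δ : GL (Fin 2) KK) (x : KK × KK) : act (γ * δ) x = act γ (act δ x) := by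
  unfold act
  rw [mul_ij, mul_ij, mul_ij, mul_ij]
  refine Prod.ext ?_ ?_ <;> simp only <;> ring

theorem vec_mul {p : Pl} (h h' : GL (Fin 2) (Kv p)) (x : KK × KK) (i : Fin 2) :
    vec (h * h') x i = h i 0 * vec h' x 0 + h i 1 * vec h' x 1 := by
  unfold vec
  rw [mul_ij, mul_ij]
  ring

theorem vec_one0 {p : Pl} (x : KK × KK) : vec (1 : GL (Fin 2) (Kv p)) x 0 = cmap p x.1 := by
  simp [vec]

theorem vec_one1 {p : Pl} (x : KK × KK) : vec (1 : GL (Fin 2) (Kv p)) x 1 = cmap p x.2 := by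
  simp [vec]

theorem locK_ij (p : Pl) (γ : GL (Fin 2) KK) (i j : Fin 2) :
    locK p γ i j = cmap p (γ i j) := rfl

theorem vec_act {p : Pl} (h : GL (Fin 2) (Kv p)) (γ : GL (Fin 2) KK) (x : KK × KK) (i : Fin 2) :
    vec h (act γ x) i = vec (h * locK p γ) x i := by
  rw [vec_mul]
  unfold vec act
  simp only [locK_ij, map_add, map_mul]

theorem mem_Lg {g : GA} {x : KK × KK} : x ∈ Lg g ↔ ∀ p i, Valued.v (vec (g p)⁻¹ x i) ≤ 1 := Iff.rfl

theorem int_mul {p : Pl} {k h : GL (Fin 2) (Kv p)} {x : KK × KK} (hk : k ∈ maxK (Kv p))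
    (hx : ∀ i, Valued.v (vec h x i) ≤ 1) (i : Fin 2) : Valued.v (vec (k * h) x i) ≤ 1 := by
  rw [vec_mul]
  refine Valued.v.map_add_le ?_ ?_ <;> rw [map_mul] <;> exact mul_le_one' (hk.1 _ _) (hx _)

theorem right (g k : GA) (hk : ∀ p, k p ∈ maxK (Kv p)) : Lg (g * k) = Lg g := by
  ext x
  rw [mem_Lg, mem_Lg]
  refine forall_congr' fun p => ?_
  rw [mul_apply, mul_inv_rev]
  constructor
  · intro h i
    have := int_mul (hk p) h i
    rwa [← mul_assoc, mul_inv_cancel, one_mul] at this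
  · intro h i
    exact int_mul (inv_mem (hk p)) h i

theorem left (γ : GL (Fin 2) KK) (g g' : GA) (h : ∀ p, g' p = locK p γ * g p) :
    HH g' = HH g := by
  have key : ∀ x : KK × KK, x ∈ Lg g' ↔ act γ⁻¹ x ∈ Lg g := by
    intro x
    rw [mem_Lg, mem_Lg]
    refine forall_congr' fun p => forall_congr' fun i => ?_
    rw [vec_act, h p, mul_inv_rev, map_inv]
  refine Nat.card_congr
    { toFun := fun x => ⟨act γ⁻¹ x.1, (key x.1).1 x.2⟩
      invFun := fun y => ⟨act γ y.1, (key _).2 (by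
        rw [← act_mul, inv_mul_cancel, act_one]; exact y.2)⟩
      left_inv := fun x => ?_
      right_inv := fun y => ?_ }
  · apply Subtype.ext
    show act γ (act γ⁻¹ x.1) = x.1
    rw [← act_mul, mul_inv_cancel, act_one]
  · apply Subtype.ext
    show act γ⁻¹ (act γ y.1) = y.1
    rw [← act_mul, inv_mul_cancel, act_one]

/-- coordinates of a lattice point in terms of the matrix -/
theorem coord {p : Pl} (h : GL (Fin 2) (Kv p)) (x : KK × KK) :
    cmap p x.1 = h 0 0 * vec h⁻¹ x 0 + h 0 1 * vec h⁻¹ x 1 ∧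
    cmap p x.2 = h 1 0 * vec h⁻¹ x 0 + h 1 1 * vec h⁻¹ x 1 := by
  constructor
  · rw [← vec_mul, mul_inv_cancel, vec_one0]
  · rw [← vec_mul, mul_inv_cancel, vec_one1]

theorem le_of_ent {p : Pl} {h : GL (Fin 2) (Kv p)} {x : KK × KK} {c : Kv p} {B : ℤᵐ⁰}
    (hB : ∀ i j, Valued.v (c * h i j) ≤ B) (hx : ∀ i, Valued.v (vec h⁻¹ x i) ≤ 1) :
    Valued.v (c * cmap p x.1) ≤ B ∧ Valued.v (c * cmap p x.2) ≤ B := by
  obtain ⟨e1, e2⟩ := coord h x
  have aux : ∀ i, Valued.v (c * (h i 0 * vec h⁻¹ x 0 + h i 1 * vec h⁻¹ x 1)) ≤ B := by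
    intro i
    have e : c * (h i 0 * vec h⁻¹ x 0 + h i 1 * vec h⁻¹ x 1)
        = (c * h i 0) * vec h⁻¹ x 0 + (c * h i 1) * vec h⁻¹ x 1 := by ring
    rw [e]
    refine Valued.v.map_add_le ?_ ?_ <;> rw [map_mul]
    · exact (mul_le_mul' (hB _ _) (hx _)).trans (by rw [mul_one])
    · exact (mul_le_mul' (hB _ _) (hx _)).trans (by rw [mul_one])
  exact ⟨by rw [e1]; exact aux 0, by rw [e2]; exact aux 1⟩

theorem exists_exp {ι : Type} [Finite ι] (f : ι → ℤᵐ⁰) : ∃ n : ℤ, ∀ i, f i ≤ exp n := by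
  have h1 : ∀ i, ∃ n : ℤ, f i ≤ exp n := by
    intro i
    rcases eq_or_ne (f i) 0 with h | h
    · exact ⟨0, by rw [h]; exact zero_le⟩
    · exact ⟨log (f i), by rw [exp_log h]⟩
  choose n hn using h1
  obtain ⟨m, hm⟩ := (Set.finite_range n).bddAbove
  exact ⟨m, fun i => (hn i).trans (exp_le_exp.mpr (hm ⟨i, rfl⟩))⟩

theorem ofPoly_ne {P : (ZMod 2)[X]} (h : P ≠ 0) : ofPoly P ≠ 0 := by
  intro h0
  exact h ((RatFunc.algebraMap_injective (ZMod 2)) (by rw [map_zero]; exact h0))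

theorem finite (hpol : S_pol) (g : GA) : Finite (Lg g) := by
  obtain ⟨-, h2, -, -, h5⟩ := hpol
  obtain ⟨d, hd, hdv⟩ := h5 g
  obtain ⟨n, hn⟩ := exists_exp (fun ij : Fin 2 × Fin 2 =>
    Valued.v (cmap none (ofPoly d) * g none ij.1 ij.2))
  set S : Set KK := {x : KK | (∀ v, Valued.v (cmap (some v) x) ≤ 1) ∧
    Valued.v (cmap none x) ≤ exp n} with hS
  have hSf : Finite S := h2 n
  have hmem : ∀ x ∈ Lg g, ofPoly d * x.1 ∈ S ∧ ofPoly d * x.2 ∈ S := by
    intro x hx
    have hfin : ∀ v, Valued.v (cmap (some v) (ofPoly d) * cmap (some v) x.1) ≤ 1 ∧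
        Valued.v (cmap (some v) (ofPoly d) * cmap (some v) x.2) ≤ 1 := fun v =>
      le_of_ent (hdv v) (hx (some v))
    have hinf := le_of_ent (c := cmap none (ofPoly d)) (B := exp n) (fun i j => hn (i, j)) (hx none)
    refine ⟨⟨fun v => ?_, ?_⟩, ⟨fun v => ?_, ?_⟩⟩
    · rw [map_mul]; exact (hfin v).1
    · rw [map_mul]; exact hinf.1
    · rw [map_mul]; exact (hfin v).2
    · rw [map_mul]; exact hinf.2
  refine Finite.of_injective (β := S × S)
    (fun x => (⟨ofPoly d * x.1.1, (hmem x.1 x.2).1⟩, ⟨ofPoly d * x.1.2, (hmem x.1 x.2).2⟩)) ?_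
  intro x y hxy
  simp only [Prod.mk.injEq, Subtype.mk.injEq] at hxy
  apply Subtype.ext
  exact Prod.ext (mul_left_cancel₀ (ofPoly_ne hd) hxy.1) (mul_left_cancel₀ (ofPoly_ne hd) hxy.2)

theorem zi_pow_none (n : ℕ) : (zi ^ n) none = Dinf.z ^ n := by
  unfold zi
  rw [← map_pow, inj_same]

theorem zi_pow_some (n : ℕ) (v : HeightOneSpectrum (ZMod 2)[X]) : (zi ^ n) (some v) = 1 := by
  unfold zi
  rw [← map_pow, inj_ne (by simp)]

theorem z_pow (n : ℕ) : Dinf.z ^ n = sc (Dinf.ϖ ^ n) (pow_ne_zero _ Dinf.ne) := by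
  induction n with
  | zero => rw [pow_zero]; simp only [pow_zero]; rw [sc_one]
  | succ n ih =>
    rw [pow_succ, ih]
    simp only [LD.z]
    rw [sc_mul]
    apply ext4 <;> simp [sc, pow_succ]

theorem v_unif (n : ℕ) : Valued.v (Dinf.ϖ ^ n) = exp (-(n : ℤ)) := by
  rw [map_pow, Dinf.hϖ, ← exp_nsmul]
  simp

theorem mul_sc_ij {p : Pl} (g : GL (Fin 2) (Kv p)) (a : Kv p) (ha : a ≠ 0) (i j : Fin 2) :
    (g * sc a ha) i j = g i j * a := by
  rw [mul_ij]
  fin_cases j <;> simp [sc]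

theorem big (hpol : S_pol) (g : GA) : ∃ n₀ : ℕ, ∀ n : ℕ, n₀ ≤ n → HH (g * zi ^ n) = 1 := by
  obtain ⟨-, -, h3, -, h5⟩ := hpol
  obtain ⟨d, hd, hdv⟩ := h5 g
  obtain ⟨m, hm⟩ := exists_exp (fun ij : Fin 2 × Fin 2 =>
    Valued.v (cmap none (ofPoly d) * g none ij.1 ij.2))
  refine ⟨(m + 1).toNat, fun n hn => ?_⟩
  have hmn : m < n := by
    have := Int.self_le_toNat (m + 1)
    omega
  have hzero : ∀ x ∈ Lg (g * zi ^ n), x = 0 := by
    intro x hx
    have hfin : ∀ v, Valued.v (cmap (some v) (ofPoly d) * cmap (some v) x.1) ≤ 1 ∧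
        Valued.v (cmap (some v) (ofPoly d) * cmap (some v) x.2) ≤ 1 := by
      intro v
      refine le_of_ent (h := (g * zi ^ n) (some v)) ?_ (hx (some v))
      intro i j
      rw [mul_apply, zi_pow_some, mul_one]
      exact hdv v i j
    have hinf : Valued.v (cmap none (ofPoly d) * cmap none x.1) ≤ exp (m - n) ∧
        Valued.v (cmap none (ofPoly d) * cmap none x.2) ≤ exp (m - n) := by
      refine le_of_ent (h := (g * zi ^ n) none) ?_ (hx none)
      intro i j
      rw [mul_apply, zi_pow_none, z_pow, mul_sc_ij, ← mul_assoc, map_mul, v_unif]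
      refine (mul_le_mul_left (hm (i, j)) _).trans ?_
      rw [← exp_add, sub_eq_add_neg]
    have hlt : exp (m - n) < (1 : ℤᵐ⁰) := by
      rw [← exp_zero, exp_lt_exp]; omega
    have e1 := h3 (ofPoly d * x.1) (fun v => by rw [map_mul]; exact (hfin v).1)
      (by rw [map_mul]; exact hinf.1.trans_lt hlt)
    have e2 := h3 (ofPoly d * x.2) (fun v => by rw [map_mul]; exact (hfin v).2)
      (by rw [map_mul]; exact hinf.2.trans_lt hlt)
    have f1 := (mul_eq_zero.mp e1).resolve_left (ofPoly_ne hd)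
    have f2 := (mul_eq_zero.mp e2).resolve_left (ofPoly_ne hd)
    exact Prod.ext f1 f2
  have : Unique (Lg (g * zi ^ n)) :=
    { default := 0
      uniq := fun x => Subtype.ext (hzero x.1 x.2) }
  exact Nat.card_unique

theorem sc_mem {p : Pl} {a : Kv p} (ha : a ≠ 0) (h : Valued.v a = 1) : sc a ha ∈ maxK (Kv p) := by
  refine ⟨fun i j => ?_, by simp [sc, h]⟩
  fin_cases i <;> fin_cases j <;> simp [sc, h]

theorem sc_div_mem {p : Pl} {a b : Kv p} (ha : a ≠ 0) (hb : b ≠ 0)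
    (h : Valued.v a = Valued.v b) : (sc a ha)⁻¹ * sc b hb ∈ maxK (Kv p) := by
  have hab : b / a ≠ 0 := div_ne_zero hb ha
  have e : sc b hb = sc a ha * sc (b / a) hab := by
    rw [sc_mul]
    apply ext4 <;> simp [sc, mul_div_cancel₀, ha]
  rw [e, inv_mul_cancel_left]
  refine sc_mem hab ?_
  rw [map_div₀, h, div_self]
  rw [ne_eq, map_eq_zero]
  exact hb

theorem scal (v : HeightOneSpectrum (ZMod 2)[X]) (D : LD (Kv (some v))) :
    ∃ d : ℕ, ∀ g, HH (g * inj (some v) D.z) = HH (g * zi ^ d) := by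
  obtain ⟨P, hP⟩ : ∃ P : (ZMod 2)[X], v.asIdeal = Ideal.span {P} :=
    (IsPrincipalIdealRing.principal v.asIdeal).principal
  have hP0 : P ≠ 0 := by
    rintro rfl
    apply v.ne_bot
    rw [hP]
    simp
  have hcP : ∀ p : Pl, cmap p (ofPoly P) ≠ 0 := fun p => by
    rw [ne_eq, map_eq_zero]; exact ofPoly_ne hP0
  set γ : GL (Fin 2) KK := sc (ofPoly P) (ofPoly_ne hP0) with hγ
  have hloc : ∀ p, locK p γ = sc (cmap p (ofPoly P)) (hcP p) := by
    intro p
    apply ext4 <;> rw [locK_ij] <;> simp [hγ, sc]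
  set n := P.natDegree with hn
  have hvinf : Valued.v (cmap none (ofPoly P)) = exp (n : ℤ) := by
    rw [v_inf, RatFunc.inftyValuation_of_nonzero _ (ofPoly_ne hP0), RatFunc.intDegree_polynomial]
  set kf : (p : Pl) → GL (Fin 2) (Kv p) := fun p =>
    (locK p γ)⁻¹ * ((zi ^ n) p)⁻¹ * (inj (some v) D.z) p with hkf
  have hk : ∀ p, kf p ∈ maxK (Kv p) := by
    intro p
    rcases p with _ | w
    · -- infinity
      simp only [hkf]
      rw [inj_ne (by simp), mul_one, hloc, zi_pow_none, z_pow]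
      have e : (sc (cmap none (ofPoly P)) (hcP none))⁻¹ *
          (sc (Dinf.ϖ ^ n) (pow_ne_zero _ Dinf.ne))⁻¹
          = (sc (cmap none (ofPoly P) * Dinf.ϖ ^ n)
            (mul_ne_zero (hcP none) (pow_ne_zero _ Dinf.ne)))⁻¹ := by
        rw [← mul_inv_rev, sc_comm, sc_mul]
      rw [e]
      refine inv_mem (sc_mem _ ?_)
      rw [map_mul, hvinf, v_unif, ← exp_add]
      simp
    · simp only [hkf]
      rw [zi_pow_some, inv_one, mul_one, hloc]
      rcases eq_or_ne w v with rfl | hw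
      · rw [inj_same]
        refine sc_div_mem (hcP _) D.ne ?_
        rw [D.hϖ, v_fin, HeightOneSpectrum.valuation_of_algebraMap]
        exact w.intValuation_singleton hP0 hP
      · rw [inj_ne (by simpa using hw), mul_one]
        refine inv_mem (sc_mem _ ?_)
        rw [v_fin, HeightOneSpectrum.valuation_of_algebraMap]
        rw [HeightOneSpectrum.intValuation_eq_one_iff]
        intro hmem
        apply hw
        have hle : v.asIdeal ≤ w.asIdeal := by
          rw [hP, Ideal.span_singleton_le_iff_mem]; exact hmem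
        have hmax : v.asIdeal.IsMaximal := v.isPrime.isMaximal v.ne_bot
        have := hmax.eq_of_le w.isPrime.ne_top hle
        exact (HeightOneSpectrum.ext this).symm
  let k : GA := ⟨kf, Filter.Eventually.of_forall fun p => hk p⟩
  refine ⟨n, fun g => ?_⟩
  have hkp : ∀ p, k p = kf p := fun p => rfl
  have h1 : HH (g * inj (some v) D.z) = HH (g * zi ^ n * k) := by
    refine left γ (g * zi ^ n * k) (g * inj (some v) D.z) fun p => ?_
    rw [mul_apply, mul_apply, mul_apply, hkp]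
    simp only [hkf]
    rw [hloc p]
    generalize g p = a
    generalize (zi ^ n) p = b
    generalize (inj (some v) D.z) p = c
    generalize hs : sc (cmap p (ofPoly P)) (hcP p) = s
    have hcomm : ∀ x : GL (Fin 2) (Kv p), s * x = x * s := by
      intro x; rw [← hs]; exact sc_comm _ _ _
    have h2 : s * (a * b * (s⁻¹ * b⁻¹ * c)) = a * (b * (s * s⁻¹) * b⁻¹) * c := by
      calc s * (a * b * (s⁻¹ * b⁻¹ * c)) = (s * (a * b)) * (s⁻¹ * b⁻¹ * c) := by group
        _ = ((a * b) * s) * (s⁻¹ * b⁻¹ * c) := by rw [hcomm]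
        _ = a * (b * (s * s⁻¹) * b⁻¹) * c := by group
    rw [h2, mul_inv_cancel, mul_one, mul_inv_cancel, mul_one]
  rw [h1]
  unfold HH
  rw [right _ _ (fun p => hk p)]

theorem main (hpol : S_pol) : S_H1 :=
  ⟨finite hpol, left, fun g k hk => by unfold HH; rw [right g k hk], big hpol, scal⟩

end Pool.Agent.W848.LLH1
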