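import Pool.Agent.W754.SpDefs

/-!
# SPEC-B: the digit set `B12` is not spectral modulo `R12`
-/

set_option autoImplicit false

open Matrix Finset

namespace Pool.Agent.W848.SpecB

open Pool.Agent.W754.Sp

/-! ## The digits -/

lemma qq_inj (i : Fin 15) : Function.Injective (qq i) := by
  intro r r' h
  unfold qq at h
  ext k
  split_ifs at h with hp
  · have h0 := congrFun h 0
    have h2 := congrFun h 2
    have h3 := congrFun h 3
    have h4 := congrFun h 4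
    simp at h0 h2 h3 h4
    fin_cases k
    · exact h0
    · exact h2
    · exact h3
    · exact h4
  · have h0 := congrFun h 1
    have h2 := congrFun h 2
    have h3 := congrFun h 3
    have h4 := congrFun h 4
    simp at h0 h2 h3 h4
    fin_cases k
    · exact h0
    · exact h2
    · exact h3
    · exact h4

lemma uu_inj : Function.Injective uu := by
  rintro ⟨i, r⟩ ⟨i', r'⟩ h
  have h5 := congrFun h (Fin.last 5)
  simp only [uu, Fin.snoc_last] at h5
  have hi : i = i' := by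
    ext
    exact_mod_cast h5
  subst hi
  have hq : qq i r = qq i r' := by
    funext j
    have := congrFun h (Fin.castSucc j)
    simpa only [uu, Fin.snoc_castSucc] using this
  rw [qq_inj i hq]

lemma dg_inj : Function.Injective (dg uu ff) := by
  intro p p' h
  apply uu_inj
  funext j
  have := congrFun h (Fin.castAdd 6 j)
  simpa only [dg, Fin.append_left] using this

theorem card_B12 : B12.card = 19440 := by
  rw [B12, BB, card_image_of_injective _ dg_inj]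
  simp [PP]

/-! ## The inverse matrix -/

/-- the inverse of `R12` over the reals -/
noncomputable def RI : Matrix (Fin (6 + 6)) (Fin (6 + 6)) ℝ :=
  Matrix.reindex finSumFinEquiv finSumFinEquiv
    (Matrix.fromBlocks 0 1 (Matrix.diagonal (fun i => ((nn i : ℤ) : ℝ)⁻¹)) 0)

lemma nn_ne (i : Fin 6) : ((nn i : ℤ) : ℝ) ≠ 0 := by
  fin_cases i <;> simp [nn]

lemma inv_eq : (R12.map (Int.cast : ℤ → ℝ))⁻¹ = RI := by
  apply Matrix.inv_eq_right_inv
  have h1 : R12.map (Int.cast : ℤ → ℝ) = Matrix.reindex finSumFinEquiv finSumFinEquiv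
      (Matrix.fromBlocks 0 (Matrix.diagonal (fun i => ((nn i : ℤ) : ℝ))) 1 0) := by
    ext a b
    obtain ⟨a, rfl⟩ := (finSumFinEquiv (m := 6) (n := 6)).surjective a
    obtain ⟨b, rfl⟩ := (finSumFinEquiv (m := 6) (n := 6)).surjective b
    simp only [R12, RR, Matrix.map_apply, Matrix.reindex_apply, Matrix.submatrix_apply,
      Equiv.symm_apply_apply]
    rcases a with a | a <;> rcases b with b | b
    · simp
    · simp only [Matrix.fromBlocks_apply₁₂, Matrix.diagonal_apply]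
      split_ifs <;> simp
    · simp only [Matrix.fromBlocks_apply₂₁, Matrix.one_apply]
      split_ifs <;> simp
    · simp
  rw [h1, RI, Matrix.reindex_apply, Matrix.reindex_apply, Matrix.submatrix_mul_equiv,
    Matrix.fromBlocks_multiply]
  have h2 : (Matrix.diagonal (fun i => ((nn i : ℤ) : ℝ))) *
      Matrix.diagonal (fun i => ((nn i : ℤ) : ℝ)⁻¹) = 1 := by
    rw [Matrix.diagonal_mul_diagonal]
    simp only [mul_inv_cancel₀ (nn_ne _)]
    exact Matrix.diagonal_one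
  simp [h2]

lemma RI_castAdd (b : Fin (6 + 6) → ℝ) (i : Fin 6) :
    (RI *ᵥ b) (Fin.castAdd 6 i) = b (Fin.natAdd 6 i) := by
  simp only [RI, Matrix.mulVec, dotProduct, Fin.sum_univ_add, Matrix.reindex_apply,
    Matrix.submatrix_apply, finSumFinEquiv_symm_apply_castAdd, finSumFinEquiv_symm_apply_natAdd,
    Matrix.fromBlocks_apply₁₁, Matrix.fromBlocks_apply₁₂, Matrix.zero_apply, Matrix.one_apply,
    zero_mul, sum_const_zero, zero_add]
  rw [Finset.sum_eq_single_of_mem i (mem_univ _) (fun j _ hj => by rw [if_neg hj.symm]; ring)]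
  simp

lemma RI_natAdd (b : Fin (6 + 6) → ℝ) (i : Fin 6) :
    (RI *ᵥ b) (Fin.natAdd 6 i) = ((nn i : ℤ) : ℝ)⁻¹ * b (Fin.castAdd 6 i) := by
  simp only [RI, Matrix.mulVec, dotProduct, Fin.sum_univ_add, Matrix.reindex_apply,
    Matrix.submatrix_apply, finSumFinEquiv_symm_apply_castAdd, finSumFinEquiv_symm_apply_natAdd,
    Matrix.fromBlocks_apply₂₁, Matrix.fromBlocks_apply₂₂, Matrix.zero_apply,
    Matrix.diagonal_apply, zero_mul, sum_const_zero, add_zero]
  rw [Finset.sum_eq_single_of_mem i (mem_univ _) (fun j _ hj => by rw [if_neg hj.symm]; ring)]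
  rw [if_pos rfl]

/-! ## The character sums -/

/-- the standard character of `ℤ/6` -/
noncomputable abbrev ψ : AddChar (ZMod 6) ℂ := ZMod.stdAddChar

/-- the pivot coordinate -/
def piv (i : Fin 15) : Fin 5 := if isP1 i then 1 else 0

/-- `v` is a multiple of `phi i` modulo `6` -/
def C (i : Fin 15) (v : Fin 5 → ZMod 6) : Prop := ∀ j, v j = v (piv i) * ((phi i j : ℤ) : ZMod 6)

instance (i : Fin 15) (v : Fin 5 → ZMod 6) : Decidable (C i v) := by unfold C; infer_instance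

/-- the coefficients of the parameters -/
def ww (i : Fin 15) (v : Fin 5 → ZMod 6) : Fin 4 → ZMod 6 :=
  if isP1 i then ![v 0 - 3 * v 1, v 2 - (phi i 2 : ℤ) * v 1, v 3 - (phi i 3 : ℤ) * v 1,
    v 4 - (phi i 4 : ℤ) * v 1]
  else ![v 1 - (phi i 1 : ℤ) * v 0, v 2 - (phi i 2 : ℤ) * v 0, v 3 - (phi i 3 : ℤ) * v 0,
    v 4 - (phi i 4 : ℤ) * v 0]

lemma phi_piv : ∀ i : Fin 15, phi i (piv i) = 1 := by decide

lemma phi_zero : ∀ i : Fin 15, isP1 i = true → phi i 0 = 3 := by decide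

lemma forall_fin5 {P : Fin 5 → Prop} : (∀ j, P j) ↔ P 0 ∧ P 1 ∧ P 2 ∧ P 3 ∧ P 4 := by
  constructor
  · exact fun h => ⟨h 0, h 1, h 2, h 3, h 4⟩
  · rintro ⟨h0, h1, h2, h3, h4⟩ j
    fin_cases j <;> assumption

lemma forall_fin4 {P : Fin 4 → Prop} : (∀ j, P j) ↔ P 0 ∧ P 1 ∧ P 2 ∧ P 3 := by
  constructor
  · exact fun h => ⟨h 0, h 1, h 2, h 3⟩
  · rintro ⟨h0, h1, h2, h3⟩ j
    fin_cases j <;> assumption

lemma C_iff (i : Fin 15) (v : Fin 5 → ZMod 6) : C i v ↔ ∀ k, ww i v k = 0 := by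
  have h1 := phi_piv i
  unfold C ww
  rw [forall_fin5, forall_fin4]
  unfold piv at *
  by_cases hp : isP1 i = true
  · have h0 := phi_zero i hp
    rw [if_pos hp] at h1
    simp only [hp, if_true, h0, h1, Int.cast_one, mul_one, true_and]
    have e0 : (((3 : ℤ)) : ZMod 6) = 3 := by norm_num
    rw [e0]
    show _ ↔ v 0 - 3 * v 1 = 0 ∧ v 2 - (phi i 2 : ℤ) * v 1 = 0 ∧ v 3 - (phi i 3 : ℤ) * v 1 = 0 ∧
      v 4 - (phi i 4 : ℤ) * v 1 = 0
    simp only [sub_eq_zero, mul_comm (v 1)]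
  · rw [if_neg hp] at h1
    simp only [hp, h1, Int.cast_one, mul_one]
    show _ ↔ v 1 - (phi i 1 : ℤ) * v 0 = 0 ∧ v 2 - (phi i 2 : ℤ) * v 0 = 0 ∧
      v 3 - (phi i 3 : ℤ) * v 0 = 0 ∧ v 4 - (phi i 4 : ℤ) * v 0 = 0
    simp [sub_eq_zero, mul_comm]

lemma sum_fin5 {M : Type*} [AddCommMonoid M] (f : Fin 5 → M) :
    ∑ j, f j = f 0 + (f 1 + (f 2 + (f 3 + f 4))) := by
  simp [Fin.sum_univ_succ]

lemma sum_fin4 {M : Type*} [AddCommMonoid M] (f : Fin 4 → M) :
    ∑ j, f j = f 0 + (f 1 + (f 2 + f 3)) := by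
  simp [Fin.sum_univ_succ]

lemma pair_eq (i : Fin 15) (r : Fin 4 → Fin 6) (α : Fin 5 → ℤ) :
    ((∑ j, qq i r j * α j : ℤ) : ZMod 6)
      = ∑ k, ((r k : ℕ) : ZMod 6) * ww i (fun j => (α j : ZMod 6)) k := by
  rw [sum_fin5, sum_fin4]
  unfold qq ww
  have hmod : ∀ x : ℤ, ((x % 6 : ℤ) : ZMod 6) = (x : ZMod 6) := fun x => ZMod.intCast_mod x 6
  split_ifs with hp
  · push_cast
    show (((r 0 : ℕ) : ℤ) : ZMod 6) * (α 0 : ZMod 6) +
      ((((-(3 * (r 0 : ℕ) + phi i 2 * (r 1 : ℕ) + phi i 3 * (r 2 : ℕ) +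
        phi i 4 * (r 3 : ℕ))) % 6 : ℤ) : ZMod 6) * (α 1 : ZMod 6) +
      ((((r 1 : ℕ) : ℤ) : ZMod 6) * (α 2 : ZMod 6) + ((((r 2 : ℕ) : ℤ) : ZMod 6) * (α 3 : ZMod 6) +
       (((r 3 : ℕ) : ℤ) : ZMod 6) * (α 4 : ZMod 6)))) =
      ((r 0 : ℕ) : ZMod 6) * ((α 0 : ZMod 6) - 3 * (α 1 : ZMod 6)) +
      (((r 1 : ℕ) : ZMod 6) * ((α 2 : ZMod 6) - (phi i 2 : ℤ) * (α 1 : ZMod 6)) +
      (((r 2 : ℕ) : ZMod 6) * ((α 3 : ZMod 6) - (phi i 3 : ℤ) * (α 1 : ZMod 6)) +
      ((r 3 : ℕ) : ZMod 6) * ((α 4 : ZMod 6) - (phi i 4 : ℤ) * (α 1 : ZMod 6))))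
    rw [hmod]
    push_cast
    ring
  · push_cast
    show ((((-(phi i 1 * (r 0 : ℕ) + phi i 2 * (r 1 : ℕ) + phi i 3 * (r 2 : ℕ) +
        phi i 4 * (r 3 : ℕ))) % 6 : ℤ) : ZMod 6) * (α 0 : ZMod 6) +
      ((((r 0 : ℕ) : ℤ) : ZMod 6) * (α 1 : ZMod 6) +
      ((((r 1 : ℕ) : ℤ) : ZMod 6) * (α 2 : ZMod 6) + ((((r 2 : ℕ) : ℤ) : ZMod 6) * (α 3 : ZMod 6) +
       (((r 3 : ℕ) : ℤ) : ZMod 6) * (α 4 : ZMod 6))))) =
      ((r 0 : ℕ) : ZMod 6) * ((α 1 : ZMod 6) - (phi i 1 : ℤ) * (α 0 : ZMod 6)) +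
      (((r 1 : ℕ) : ZMod 6) * ((α 2 : ZMod 6) - (phi i 2 : ℤ) * (α 0 : ZMod 6)) +
      (((r 2 : ℕ) : ZMod 6) * ((α 3 : ZMod 6) - (phi i 3 : ℤ) * (α 0 : ZMod 6)) +
      ((r 3 : ℕ) : ZMod 6) * ((α 4 : ZMod 6) - (phi i 4 : ℤ) * (α 0 : ZMod 6))))
    rw [hmod]
    push_cast
    ring

/-- the sum of the character over `Q_i` -/
lemma sum_qq (i : Fin 15) (α : Fin 5 → ℤ) :
    ∑ r : Fin 4 → Fin 6, ψ ((∑ j, qq i r j * α j : ℤ) : ZMod 6)
      = if C i (fun j => (α j : ZMod 6)) then 1296 else 0 := by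
  have h1 : ∀ r : Fin 4 → Fin 6, ψ ((∑ j, qq i r j * α j : ℤ) : ZMod 6)
      = ∏ k, ψ (((r k : ℕ) : ZMod 6) * ww i (fun j => (α j : ZMod 6)) k) := by
    intro r
    rw [pair_eq, sum_fin4, AddChar.map_add_eq_mul, AddChar.map_add_eq_mul,
      AddChar.map_add_eq_mul, Fin.prod_univ_four]
    ring
  rw [sum_congr rfl (fun r _ => h1 r)]
  have h2 := (Finset.prod_univ_sum (fun _ : Fin 4 => (univ : Finset (Fin 6)))
    (fun k (x : Fin 6) => ψ (((x : ℕ) : ZMod 6) * ww i (fun j => (α j : ZMod 6)) k)))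
  rw [Fintype.piFinset_univ] at h2
  rw [← h2]
  have h3 : ∀ b : ZMod 6, ∑ x : Fin 6, ψ (((x : ℕ) : ZMod 6) * b) = if b = 0 then 6 else 0 := by
    intro b
    have h4 := AddChar.sum_mulShift b (ZMod.isPrimitive_stdAddChar 6)
    have h5 : ∑ x : Fin 6, ψ (((x : ℕ) : ZMod 6) * b) = ∑ x : ZMod 6, ψ (x * b) := by
      refine Finset.sum_congr rfl fun x _ => ?_
      have : ((x : ℕ) : ZMod 6) = x := ZMod.natCast_zmod_val (n := 6) x
      rw [this]
    rw [h5, h4]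
    simp
  simp only [h3]
  by_cases hC : C i (fun j => (α j : ZMod 6))
  · rw [if_pos hC]
    rw [C_iff] at hC
    simp only [hC, if_true]
    norm_num
  · rw [if_neg hC]
    rw [C_iff] at hC
    push Not at hC
    obtain ⟨k, hk⟩ := hC
    exact Finset.prod_eq_zero (mem_univ k) (if_neg hk)

/-! ## The exponential sum over `B12` -/

lemma nn_castSucc (j : Fin 5) : nn (Fin.castSucc j) = 6 := by
  fin_cases j <;> rfl

lemma nn_last : nn (Fin.last 5) = 48600 := rfl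

/-- the sum in the definition of spectrality -/
noncomputable def SS (l l' : Fin (6 + 6) → ℤ) : ℂ :=
  ∑ b ∈ B12, Complex.exp (2 * Real.pi * Complex.I *
     ((∑ i, ((R12.map (Int.cast : ℤ → ℝ))⁻¹ *ᵥ (fun j => (b j : ℝ))) i * ((l i : ℝ) - (l' i : ℝ)) : ℝ) : ℂ))

/-- the last coordinate of the difference -/
def kap (l l' : Fin (6 + 6) → ℤ) : ℤ := l (Fin.natAdd 6 (Fin.last 5)) - l' (Fin.natAdd 6 (Fin.last 5))

/-- the coordinates `6..10`, modulo 6 -/
def aa (l : Fin (6 + 6) → ℤ) : Fin 5 → ZMod 6 := fun j => (l (Fin.natAdd 6 (Fin.castSucc j)) : ZMod 6)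

/-- the root of unity -/
noncomputable def zz (κ : ℤ) : ℂ := Complex.exp (2 * Real.pi * Complex.I * κ / 48600)

lemma term_eq (l l' : Fin (6 + 6) → ℤ) (p : PP) :
    Complex.exp (2 * Real.pi * Complex.I *
     ((∑ i, ((R12.map (Int.cast : ℤ → ℝ))⁻¹ *ᵥ (fun j => (dg uu ff p j : ℝ))) i *
        ((l i : ℝ) - (l' i : ℝ)) : ℝ) : ℂ)) =
    ψ ((∑ j, qq p.1 p.2 j * (l (Fin.natAdd 6 (Fin.castSucc j)) -
      l' (Fin.natAdd 6 (Fin.castSucc j))) : ℤ) : ZMod 6) * zz (kap l l') ^ (p.1 : ℕ) := by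
  rw [inv_eq, Fin.sum_univ_add]
  simp only [RI_castAdd, RI_natAdd]
  have h1 : ∑ i : Fin 6, (dg uu ff p (Fin.natAdd 6 i) : ℝ) *
      ((l (Fin.castAdd 6 i) : ℝ) - (l' (Fin.castAdd 6 i) : ℝ)) =
      ((∑ i : Fin 6, ff p i * (l (Fin.castAdd 6 i) - l' (Fin.castAdd 6 i)) : ℤ) : ℝ) := by
    push_cast
    refine Finset.sum_congr rfl fun i _ => ?_
    rw [dg, Fin.append_right]
  have h2 : ∑ i : Fin 6, ((nn i : ℤ) : ℝ)⁻¹ * (dg uu ff p (Fin.castAdd 6 i) : ℝ) *
      ((l (Fin.natAdd 6 i) : ℝ) - (l' (Fin.natAdd 6 i) : ℝ)) =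
      ((∑ j, qq p.1 p.2 j * (l (Fin.natAdd 6 (Fin.castSucc j)) -
      l' (Fin.natAdd 6 (Fin.castSucc j))) : ℤ) : ℝ) / 6 + (p.1 : ℕ) * (kap l l' : ℝ) / 48600 := by
    rw [Fin.sum_univ_castSucc]
    congr 1
    · push_cast
      rw [Finset.sum_div]
      refine Finset.sum_congr rfl fun j _ => ?_
      rw [nn_castSucc, dg, Fin.append_left, uu, Fin.snoc_castSucc]
      push_cast
      ring
    · rw [nn_last, dg, Fin.append_left, uu, Fin.snoc_last, kap]
      push_cast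
      ring
  rw [h1, h2]
  set N : ℤ := ∑ i : Fin 6, ff p i * (l (Fin.castAdd 6 i) - l' (Fin.castAdd 6 i)) with hN
  set t : ℤ := ∑ j, qq p.1 p.2 j * (l (Fin.natAdd 6 (Fin.castSucc j)) -
      l' (Fin.natAdd 6 (Fin.castSucc j))) with ht
  have h3 : (2 * Real.pi * Complex.I * (((N : ℝ) + ((t : ℝ) / 6 + (p.1 : ℕ) * (kap l l' : ℝ) / 48600) : ℝ) : ℂ))
      = N * (2 * Real.pi * Complex.I) + (2 * Real.pi * Complex.I * t / (6 : ℕ) +
        (p.1 : ℕ) * (2 * Real.pi * Complex.I * kap l l' / 48600)) := by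
    push_cast
    ring
  rw [h3, Complex.exp_add, Complex.exp_int_mul_two_pi_mul_I, one_mul, Complex.exp_add,
    ← ZMod.stdAddChar_coe, Complex.exp_nat_mul, zz]

lemma SS_eq (l l' : Fin (6 + 6) → ℤ) :
    SS l l' = ∑ i : Fin 15, (if C i (aa l - aa l') then 1296 else 0) * zz (kap l l') ^ (i : ℕ) := by
  rw [SS, B12, BB, Finset.sum_image (fun a _ b _ h => dg_inj h)]
  rw [Finset.sum_congr rfl (fun p _ => term_eq l l' p), Fintype.sum_prod_type]
  refine Finset.sum_congr rfl fun i _ => ?_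
  dsimp only
  rw [← Finset.sum_mul]
  congr 1
  have := sum_qq i (fun j => l (Fin.natAdd 6 (Fin.castSucc j)) - l' (Fin.natAdd 6 (Fin.castSucc j)))
  rw [this]
  have h2 : (fun j => ((l (Fin.natAdd 6 (Fin.castSucc j)) - l' (Fin.natAdd 6 (Fin.castSucc j)) : ℤ) :
      ZMod 6)) = aa l - aa l' := by
    funext j
    simp [aa]
  rw [h2]

/-! ## The combinatorics -/

/-- the six vectors -/
def sv : Fin 6 → Fin 5 → ZMod 6 :=
  ![![0, 0, 0, 0, 0], ![0, 2, 2, 4, 4], ![2, 0, 4, 4, 2], ![2, 4, 0, 2, 4], ![4, 4, 2, 0, 2],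
    ![4, 2, 4, 2, 0]]

lemma sv_unique : ∀ a b : Fin 6, a ≠ b → ∃ i : Fin 15, C i (sv a - sv b) ∧
    ∀ i' : Fin 15, C i' (sv a - sv b) → i' = i := by
  decide +kernel

lemma sv_inj : ∀ a b : Fin 6, sv a = sv b → a = b := by
  decide +kernel

lemma zz_ne (κ : ℤ) : zz κ ≠ 0 := Complex.exp_ne_zero _

lemma zz_pow_ne (κ : ℤ) (k : ℕ) : zz κ ^ k ≠ 0 := pow_ne_zero _ (zz_ne κ)

/-- Claim 1 -/
lemma claim1 {l l' : Fin (6 + 6) → ℤ} (h : SS l l' = 0) {a b : Fin 6} (hab : a ≠ b) :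
    aa l - aa l' ≠ sv a - sv b := by
  intro heq
  rw [SS_eq, heq] at h
  obtain ⟨i, hi, hu⟩ := sv_unique a b hab
  rw [Finset.sum_eq_single_of_mem i (mem_univ _) (fun j _ hj => by
    rw [if_neg (fun hh => hj (hu j hh)), zero_mul]), if_pos hi] at h
  exact mul_ne_zero (by norm_num) (zz_pow_ne _ _) h

/-- Claim 3 -/
lemma claim3 {l l' : Fin (6 + 6) → ℤ} (h : SS l l' = 0) (haa : aa l = aa l') :
    (3240 : ℤ) ∣ kap l l' ∧ ¬ (48600 : ℤ) ∣ kap l l' := by
  have hC : ∀ i : Fin 15, C i (aa l - aa l') := by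
    intro i j
    simp [haa]
  rw [SS_eq] at h
  simp only [hC, if_true] at h
  rw [← Finset.mul_sum] at h
  have h1 : ∑ i : Fin 15, zz (kap l l') ^ (i : ℕ) = 0 := by
    rcases mul_eq_zero.1 h with h | h
    · norm_num at h
    · exact h
  rw [Fin.sum_univ_eq_sum_range (fun k => zz (kap l l') ^ k) 15] at h1
  have h2 := geom_sum_mul (zz (kap l l')) 15
  rw [h1, zero_mul] at h2
  have h3 : zz (kap l l') ^ 15 = 1 := by
    have := sub_eq_zero.1 h2.symm
    exact this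
  constructor
  · rw [zz, ← Complex.exp_nat_mul, Complex.exp_eq_one_iff] at h3
    obtain ⟨n, hn⟩ := h3
    have hpi : (2 * Real.pi * Complex.I : ℂ) ≠ 0 := Complex.two_pi_I_ne_zero
    have h4 : (kap l l' : ℂ) = 3240 * n := by
      have h5 : (2 * Real.pi * Complex.I : ℂ) * (kap l l' : ℂ) = (2 * Real.pi * Complex.I) * (3240 * n) := by
        have : ((15 : ℕ) : ℂ) * (2 * Real.pi * Complex.I * (kap l l' : ℂ) / 48600)
            = (2 * Real.pi * Complex.I) * (kap l l' : ℂ) / 3240 := by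
          push_cast; ring
        rw [this] at hn
        field_simp at hn
        linear_combination (2 * Real.pi * Complex.I) * hn
      exact mul_left_cancel₀ hpi h5
    refine ⟨n, ?_⟩
    exact_mod_cast h4
  · rintro ⟨n, hn⟩
    have h4 : zz (kap l l') = 1 := by
      rw [zz, Complex.exp_eq_one_iff]
      refine ⟨n, ?_⟩
      rw [hn]
      push_cast
      ring
    rw [h4] at h1
    norm_num at h1

/-- Claim 3, counting form -/
lemma fibre_card {L : Finset (Fin (6 + 6) → ℤ)}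
    (hL : ∀ l ∈ L, ∀ l' ∈ L, l ≠ l' → SS l l' = 0) (a : Fin 5 → ZMod 6) :
    (L.filter (fun l => aa l = a)).card ≤ 15 := by
  rcases (L.filter (fun l => aa l = a)).eq_empty_or_nonempty with h0 | ⟨l₀, hl₀⟩
  · rw [h0]; simp
  rw [mem_filter] at hl₀
  have h1 : (L.filter (fun l => aa l = a)).card ≤ (Finset.Ico (0 : ℤ) 15).card := by
    refine Finset.card_le_card_of_injOn (fun l => (kap l l₀ / 3240) % 15) ?_ ?_
    · intro l _
      rw [Finset.mem_coe, Finset.mem_Ico]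
      exact ⟨Int.emod_nonneg _ (by norm_num), Int.emod_lt_of_pos _ (by norm_num)⟩
    · intro l hl l' hl' heq
      rw [Finset.mem_coe, mem_filter] at hl hl'
      by_contra hne
      dsimp only at heq
      have hd : ∀ m ∈ L, aa m = a → (3240 : ℤ) ∣ kap m l₀ := by
        intro m hm hma
        by_cases hmm : m = l₀
        · rw [hmm]; simp [kap]
        · exact (claim3 (hL m hm l₀ hl₀.1 hmm) (hma.trans hl₀.2.symm)).1
      have h2 := hd l hl.1 hl.2
      have h3 := hd l' hl'.1 hl'.2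
      have h4 := (claim3 (hL l hl.1 l' hl'.1 hne) (hl.2.trans hl'.2.symm)).2
      have h5 : kap l l' = kap l l₀ - kap l' l₀ := by unfold kap; ring
      apply h4
      rw [h5]
      omega
  simpa using h1

lemma count_even : ((univ : Finset (Fin 5 → ZMod 6)).filter
    (fun v => ∀ j, v j ∈ ({0, 2, 4} : Finset (ZMod 6)))).card = 243 := by
  have h1 : (univ : Finset (Fin 5 → ZMod 6)).filter
      (fun v => ∀ j, v j ∈ ({0, 2, 4} : Finset (ZMod 6)))
      = Fintype.piFinset (fun _ => ({0, 2, 4} : Finset (ZMod 6))) := by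
    ext v
    rw [mem_filter, Fintype.mem_piFinset]
    simp only [mem_univ, true_and]
  rw [h1, Fintype.card_piFinset]
  have h2 : ({0, 2, 4} : Finset (ZMod 6)).card = 3 := by decide
  rw [h2]
  simp

lemma even_add : ∀ x y : ZMod 6, y ∈ ({0, 2, 4} : Finset (ZMod 6)) →
    (x + y ∈ ({0, 2, 4} : Finset (ZMod 6)) ↔ x ∈ ({0, 2, 4} : Finset (ZMod 6))) := by
  decide

lemma sv_even : ∀ (a : Fin 6) (j : Fin 5), sv a j ∈ ({0, 2, 4} : Finset (ZMod 6)) := by
  decide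

lemma image_card {L : Finset (Fin (6 + 6) → ℤ)}
    (hL : ∀ l ∈ L, ∀ l' ∈ L, l ≠ l' → SS l l' = 0) : (L.image aa).card < 1296 := by
  classical
  set A := L.image aa with hA
  have hinj : Set.InjOn (fun q : (Fin 5 → ZMod 6) × Fin 6 => q.1 + sv q.2)
      ((A ×ˢ (univ : Finset (Fin 6)) : Finset _) : Set _) := by
    rintro ⟨a, s⟩ hq ⟨a', s'⟩ hq' heq
    rw [Finset.mem_coe, Finset.mem_product] at hq hq'
    dsimp only at hq hq' heq
    obtain ⟨l, hl, rfl⟩ := mem_image.1 hq.1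
    obtain ⟨l', hl', rfl⟩ := mem_image.1 hq'.1
    have hdiff : aa l - aa l' = sv s' - sv s := by
      rw [sub_eq_sub_iff_add_eq_add]
      rw [heq, add_comm]
    by_cases hs : s = s'
    · subst hs
      rw [sub_self, sub_eq_zero] at hdiff
      rw [hdiff]
    · by_cases hll : l = l'
      · subst hll
        rw [sub_self] at hdiff
        exact absurd (sv_inj _ _ (sub_eq_zero.1 hdiff.symm)).symm hs
      · exact absurd hdiff (claim1 (hL l hl l' hl' hll) (Ne.symm hs))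
  have hcard := Finset.card_image_of_injOn hinj
  rw [Finset.card_product, Finset.card_univ, Fintype.card_fin] at hcard
  have htot : Fintype.card (Fin 5 → ZMod 6) = 7776 := by
    rw [Fintype.card_pi]; simp [ZMod.card]
  have hle := Finset.card_le_univ ((A ×ˢ (univ : Finset (Fin 6))).image
    (fun q : (Fin 5 → ZMod 6) × Fin 6 => q.1 + sv q.2))
  rw [hcard, htot] at hle
  by_contra hcon
  have hAc : A.card = 1296 := by omega
  have hall : (A ×ˢ (univ : Finset (Fin 6))).image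
      (fun q : (Fin 5 → ZMod 6) × Fin 6 => q.1 + sv q.2) = univ := by
    apply Finset.eq_univ_of_card
    rw [hcard, htot, hAc]
  have h1 : ((univ : Finset (Fin 5 → ZMod 6)).filter
    (fun v => ∀ j, v j ∈ ({0, 2, 4} : Finset (ZMod 6)))) =
      ((A.filter (fun v => ∀ j, v j ∈ ({0, 2, 4} : Finset (ZMod 6)))) ×ˢ
        (univ : Finset (Fin 6))).image
      (fun q : (Fin 5 → ZMod 6) × Fin 6 => q.1 + sv q.2) := by
    ext v
    rw [mem_filter, mem_image]
    constructor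
    · rintro ⟨-, hv⟩
      have hv' : v ∈ (A ×ˢ (univ : Finset (Fin 6))).image
        (fun q : (Fin 5 → ZMod 6) × Fin 6 => q.1 + sv q.2) := by rw [hall]; exact mem_univ _
      obtain ⟨⟨a, s⟩, hq, rfl⟩ := mem_image.1 hv'
      rw [mem_product] at hq
      refine ⟨(a, s), mem_product.2 ⟨mem_filter.2 ⟨hq.1, fun j => ?_⟩, mem_univ _⟩, rfl⟩
      exact (even_add _ _ (sv_even s j)).1 (hv j)
    · rintro ⟨⟨a, s⟩, hq, rfl⟩
      rw [mem_product, mem_filter] at hq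
      exact ⟨mem_univ _, fun j => (even_add _ _ (sv_even s j)).2 (hq.1.2 j)⟩
  have h2 := count_even
  rw [h1, Finset.card_image_of_injOn (hinj.mono (by
    intro q hq
    rw [Finset.mem_coe, mem_product] at hq ⊢
    exact ⟨(mem_filter.1 hq.1).1, hq.2⟩)), Finset.card_product, Finset.card_univ,
    Fintype.card_fin] at h2
  omega

/-- every spectrum-like set is smaller than `B12` -/
theorem card_lt {L : Finset (Fin (6 + 6) → ℤ)}
    (hL : ∀ l ∈ L, ∀ l' ∈ L, l ≠ l' → SS l l' = 0) : L.card < 19440 := by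
  classical
  have h1 := Finset.card_le_mul_card_image (f := aa) L 15 (fun a _ => fibre_card hL a)
  have h2 := image_card hL
  omega

theorem no_hadamard : ¬ ∃ L : Finset (Fin (6+6) → ℤ), L.card = B12.card ∧
  ∀ l ∈ L, ∀ l' ∈ L, l ≠ l' → ∑ b ∈ B12, Complex.exp (2 * Real.pi * Complex.I *
     ((∑ i, ((R12.map (Int.cast : ℤ → ℝ))⁻¹ *ᵥ (fun j => (b j : ℝ))) i *
      ((l i : ℝ) - (l' i : ℝ)) : ℝ) : ℂ)) = 0 := by
  rintro ⟨L, hcard, hL⟩
  have := card_lt (L := L) hL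
  rw [card_B12] at hcard
  omega

end Pool.Agent.W848.SpecB
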