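import Pool.Agent.W848.Flags

/-!
# The inequality for a class of flags
-/

set_option autoImplicit false

namespace Pool.Agent.W848.ClassIneq

open Finset Pool.Agent.W848.TreeAvg Pool.Agent.W848.Star Pool.Agent.W848.Flags

variable {V : Type*} [DecidableEq V]

/-- a class of flags: closed under reversal, inside a small family of edges -/
structure Cls (e : ℕ) (H : Finset (Finset V)) (c : Finset (Finset V × Finset (Finset V))) :
    Prop where
  sub : c ⊆ flags e H
  rev : ∀ F ∈ c, ∀ b ∈ F.2, ∃ F' ∈ c, F'.1 = b ∧ F.1 ∈ F'.2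
  small : (c.image Prod.fst).card < e

variable {e : ℕ} {H : Finset (Finset V)} {c : Finset (Finset V × Finset (Finset V))}

/-- flags of the class active at `x` -/
def cx (c : Finset (Finset V × Finset (Finset V))) (x : V) :
    Finset (Finset V × Finset (Finset V)) :=
  c.filter (fun F => x ∈ F.1 ∧ ∃ b ∈ F.2, x ∈ b)

/-- the lines of the class active at `x` -/
def K (c : Finset (Finset V × Finset (Finset V))) (x : V) : Finset (Finset V) :=
  (cx c x).image Prod.fst

/-- the lines of the class -/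
abbrev L (c : Finset (Finset V × Finset (Finset V))) : Finset (Finset V) := c.image Prod.fst

/-- the lines of a flag not through `x` -/
abbrev TF (F : Finset V × Finset (Finset V)) (x : V) : Finset (Finset V) :=
  F.2.filter (fun b => x ∉ b)

lemma mem_K {x : V} {l : Finset V} : l ∈ K c x ↔ ∃ F ∈ c, F.1 = l ∧ x ∈ F.1 ∧ ∃ b ∈ F.2, x ∈ b := by
  simp only [K, cx, mem_image, mem_filter]
  constructor
  · rintro ⟨F, ⟨hF, h1, h2⟩, rfl⟩; exact ⟨F, hF, rfl, h1, h2⟩
  · rintro ⟨F, hF, rfl, h1, h2⟩; exact ⟨F, ⟨hF, h1, h2⟩, rfl⟩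

lemma Cls.rev_K (hc : Cls e H c) {x : V} {F : Finset V × Finset (Finset V)} (hF : F ∈ cx c x)
    {b : Finset V} (hb : b ∈ F.2) (hxb : x ∈ b) : b ∈ K c x := by
  rw [cx, mem_filter] at hF
  obtain ⟨F', hF', rfl, hF1⟩ := hc.rev F hF.1 b hb
  exact mem_K.2 ⟨F', hF', rfl, hxb, F.1, hF1, hF.2.1⟩

lemma fst_mem_K {x : V} {F : Finset V × Finset (Finset V)} (hF : F ∈ cx c x) : F.1 ∈ K c x :=
  mem_image_of_mem _ hF

lemma K_sub_L (x : V) : K c x ⊆ L c := image_subset_image (filter_subset _ _)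

lemma Cls.L_sub_H (hc : Cls e H c) : L c ⊆ H := by
  intro l hl
  obtain ⟨F, hF, rfl⟩ := mem_image.1 hl
  exact (mem_flags.1 (hc.sub hF)).1

lemma Cls.snd_sub_L (hc : Cls e H c) {F : Finset V × Finset (Finset V)} (hF : F ∈ c) :
    F.2 ⊆ L c := by
  intro b hb
  obtain ⟨F', hF', rfl, -⟩ := hc.rev F hF b hb
  exact mem_image_of_mem _ hF'

lemma K_mem_x {x : V} {l : Finset V} (hl : l ∈ K c x) : x ∈ l := by
  obtain ⟨F, _, rfl, h1, _⟩ := mem_K.1 hl
  exact h1

/-- Lemma A -/
lemma Cls.lemA (hc : Cls e H c) (h : Sp e H) {x : V} {F : Finset V × Finset (Finset V)}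
    (hF : F ∈ cx c x) :
    (un (TF F x) \ un (K c x)).card + (at' F.2 x).card ≤ (TF F x).card + 1 := by
  classical
  have hFc : F ∈ c := (mem_filter.1 hF).1
  have hxF : x ∈ F.1 := (mem_filter.1 hF).2.1
  have hFf := hc.sub hFc
  have hFH : F.1 ∈ H := (mem_flags.1 hFf).1
  have hM := flags_M hFf
  have hcomp := (mem_flags.1 hFf).2
  rw [comps, mem_filter, mem_powerset] at hcomp
  have hcard : (at' F.2 x).card + (TF F x).card = F.2.card :=
    card_filter_add_card_filter_not (fun b => x ∈ b)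
  have hatM : ∀ b ∈ at' F.2 x, b ∈ H ∧ b ≠ F.1 ∧ x ∈ b := by
    intro b hb
    rw [mem_filter] at hb
    have := mem_M.1 (hM hb.1)
    exact ⟨this.1, this.2.1, hb.2⟩
  have hsub : (un (TF F x) \ un (K c x)) ∪ (at' F.2 x).biUnion (fun b => b.erase x) ⊆
      un F.2 \ F.1 := by
    intro y hy
    rw [mem_union] at hy
    rcases hy with hy | hy
    · rw [mem_sdiff] at hy ⊢
      refine ⟨biUnion_subset_biUnion_of_subset_left _ (filter_subset _ _) hy.1, ?_⟩
      intro hyF
      exact hy.2 (mem_biUnion.2 ⟨F.1, fst_mem_K hF, hyF⟩)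
    · rw [mem_biUnion] at hy
      obtain ⟨b, hb, hy⟩ := hy
      rw [mem_erase] at hy
      obtain ⟨hbH, hbne, hxb⟩ := hatM b hb
      rw [mem_sdiff]
      refine ⟨mem_biUnion.2 ⟨b, (mem_filter.1 hb).1, hy.2⟩, ?_⟩
      intro hyF
      exact hbne (eq_of_two h.lin hbH hFH hy.1 hy.2 hxb hyF hxF)
  have hdis : Disjoint (un (TF F x) \ un (K c x)) ((at' F.2 x).biUnion (fun b => b.erase x)) := by
    rw [disjoint_left]
    intro y hy1 hy2
    rw [mem_biUnion] at hy2
    obtain ⟨b, hb, hy⟩ := hy2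
    rw [mem_sdiff] at hy1
    refine hy1.2 (mem_biUnion.2 ⟨b, ?_, mem_of_mem_erase hy⟩)
    exact hc.rev_K hF (mem_filter.1 hb).1 (mem_filter.1 hb).2
  have h1 := card_le_card hsub
  rw [card_union_of_disjoint hdis, card_biUnion (by
    intro A hA B hB hAB
    change Disjoint (A.erase x) (B.erase x)
    rw [disjoint_left]
    intro y hyA hyB
    rw [mem_erase] at hyA hyB
    obtain ⟨hA1, _, hA3⟩ := hatM A hA
    obtain ⟨hB1, _, hB3⟩ := hatM B hB
    exact hAB (eq_of_two h.lin hA1 hB1 hyA.1.symm hA3 hyA.2 hB3 hyB.2)),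
    sum_congr rfl (fun b hb => by
      rw [card_erase_of_mem (hatM b hb).2.2, h.h3 b (hatM b hb).1]), sum_const, smul_eq_mul,
    hcomp.2.2.2.1] at h1
  omega

/-- Lemma B -/
lemma Cls.lemB (hc : Cls e H c) (h : Sp e H) {x : V} {g : Finset V} (hg : g ∈ H)
    (hxg : x ∉ g) : ((cx c x).filter (fun F => g ∈ F.2)).card ≤ 3 := by
  classical
  set S := (cx c x).filter (fun F => g ∈ F.2) with hS
  have hSf : ∀ F ∈ S, F ∈ flags e H ∧ x ∈ F.1 ∧ g ∈ F.2 := by
    intro F hF
    rw [hS, mem_filter, cx, mem_filter] at hF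
    exact ⟨hc.sub hF.1.1, hF.1.2.1, hF.2⟩
  have h1 : (S.image Prod.fst).card = S.card := by
    refine card_image_of_injOn ?_
    intro F hF F' hF' hFF
    exact h.flags_eq (hSf F hF).1 (hSf F' hF').1 hFF (hSf F hF).2.2 (hSf F' hF').2.2
  have hsubH : S.image Prod.fst ⊆ H := by
    intro l hl
    obtain ⟨F, hF, rfl⟩ := mem_image.1 hl
    exact (mem_flags.1 (hSf F hF).1).1
  have hx : ∀ B ∈ S.image Prod.fst, x ∈ B := by
    intro l hl
    obtain ⟨F, hF, rfl⟩ := mem_image.1 hl
    exact (hSf F hF).2.1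
  have h2 := meet_bound (S.image Prod.fst) g (by
    intro l hl
    obtain ⟨F, hF, rfl⟩ := mem_image.1 hl
    exact (mem_M.1 (flags_M (hSf F hF).1 (hSf F hF).2.2)).2.2) (at_card_le_one h.lin hsubH hx hxg)
  have h3 : (g ∩ un (S.image Prod.fst)).card ≤ g.card := card_le_card inter_subset_left
  have h4 := h.h3 g hg
  omega

/-- Lemma C -/
lemma Cls.lemC (hc : Cls e H c) (h : Sp e H) {x : V} (hK : (K c x).Nonempty)
    {T : Finset (Finset V)} (hT : T ⊆ L c) (hxT : ∀ b ∈ T, x ∉ b) :
    T.card + 2 ≤ (K c x).card + (un T \ un (K c x)).card := by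
  classical
  have hK2 : 2 ≤ (K c x).card := by
    obtain ⟨l, hl⟩ := hK
    obtain ⟨F, hF, rfl, h1, b, hb, hxb⟩ := mem_K.1 hl
    have hFx : F ∈ cx c x := mem_filter.2 ⟨hF, h1, b, hb, hxb⟩
    have hbK := hc.rev_K hFx hb hxb
    have hne : b ≠ F.1 := (mem_M.1 (flags_M (hc.sub hF) hb)).2.1
    exact one_lt_card.2 ⟨b, hbK, F.1, hl, hne⟩
  have hdis : Disjoint (K c x) T := by
    rw [disjoint_left]
    intro l hl hlT
    exact hxT l hlT (K_mem_x hl)
  have hsub : K c x ∪ T ⊆ L c := union_subset (K_sub_L x) hT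
  have h1 := card_le_card hsub
  have hsm := hc.small
  have h2 := h.sp _ (hsub.trans hc.L_sub_H) (by rw [card_union_of_disjoint hdis]; omega)
    (by exact h1.trans hsm.le)
  rw [card_union_of_disjoint hdis, un_union, ← union_sdiff_self_eq_union,
    card_union_of_disjoint disjoint_sdiff] at h2
  have h3 := un_pencil (F := K c x) (fun A hA => h.h3 A (hc.L_sub_H (K_sub_L x hA)))
    (x := x) (fun B hB => K_mem_x hB)
  omega

/-- how many active flags contain `g` -/
def mult (c : Finset (Finset V × Finset (Finset V))) (x : V) (g : Finset V) : ℕ :=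
  ((cx c x).filter (fun F => g ∈ F.2)).card

/-- lines not through `x` contained in at least `j` active flags -/
def TJ (c : Finset (Finset V × Finset (Finset V))) (x : V) (j : ℕ) : Finset (Finset V) :=
  (L c).filter (fun g => x ∉ g ∧ j ≤ mult c x g)

lemma sum_Icc_ind (m : ℕ) (hm : m ≤ 3) : ∑ j ∈ Icc 1 3, (if j ≤ m then 1 else 0) = m := by
  interval_cases m <;> decide

/-- the sum of the sizes of the `TF` -/
lemma Cls.sumTF (hc : Cls e H c) (h : Sp e H) (x : V) :
    ∑ F ∈ cx c x, (TF F x).card = ∑ j ∈ Icc 1 3, (TJ c x j).card := by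
  classical
  have e1 : ∀ F ∈ cx c x, (TF F x).card = ∑ g ∈ (L c).filter (fun g => x ∉ g),
      if g ∈ F.2 then 1 else 0 := by
    intro F hF
    rw [← card_filter]
    congr 1
    ext g
    simp only [mem_filter]
    constructor
    · rintro ⟨h1, h2⟩; exact ⟨⟨hc.snd_sub_L (mem_filter.1 hF).1 h1, h2⟩, h1⟩
    · rintro ⟨⟨_, h2⟩, h1⟩; exact ⟨h1, h2⟩
  rw [sum_congr rfl e1, sum_comm]
  have e2 : ∀ g ∈ (L c).filter (fun g => x ∉ g), (∑ F ∈ cx c x, if g ∈ F.2 then 1 else 0)
      = ∑ j ∈ Icc 1 3, if j ≤ mult c x g then 1 else 0 := by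
    intro g hg
    rw [mem_filter] at hg
    have hm : mult c x g ≤ 3 := hc.lemB h (hc.L_sub_H hg.1) hg.2
    rw [sum_Icc_ind _ hm, ← card_filter]
    rfl
  rw [sum_congr rfl e2, sum_comm]
  refine sum_congr rfl fun j _ => ?_
  rw [← card_filter, filter_filter]
  rfl

/-- the sum of the sizes of the `NF` -/
lemma Cls.sumNF (hc : Cls e H c) (x : V) :
    ∑ j ∈ Icc 1 3, (un (TJ c x j) \ un (K c x)).card ≤
      ∑ F ∈ cx c x, (un (TF F x) \ un (K c x)).card := by
  classical
  set Y := un (L c) \ un (K c x) with hY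
  have e1 : ∀ j ∈ Icc 1 3, (un (TJ c x j) \ un (K c x)).card
      = ∑ y ∈ Y, if y ∈ un (TJ c x j) then 1 else 0 := by
    intro j _
    rw [← card_filter]
    congr 1
    ext y
    rw [mem_sdiff, mem_filter, hY, mem_sdiff]
    constructor
    · rintro ⟨h1, h2⟩
      exact ⟨⟨biUnion_subset_biUnion_of_subset_left _ (filter_subset _ _) h1, h2⟩, h1⟩
    · rintro ⟨⟨_, h2⟩, h1⟩; exact ⟨h1, h2⟩
  have e2 : ∀ F ∈ cx c x, (un (TF F x) \ un (K c x)).card
      = ∑ y ∈ Y, if y ∈ un (TF F x) then 1 else 0 := by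
    intro F hF
    rw [← card_filter]
    congr 1
    ext y
    rw [mem_sdiff, mem_filter, hY, mem_sdiff]
    constructor
    · rintro ⟨h1, h2⟩
      exact ⟨⟨biUnion_subset_biUnion_of_subset_left _
        ((filter_subset _ _).trans (hc.snd_sub_L (mem_filter.1 hF).1)) h1, h2⟩, h1⟩
    · rintro ⟨⟨_, h2⟩, h1⟩; exact ⟨h1, h2⟩
  rw [sum_congr rfl e1, sum_congr rfl e2, sum_comm, sum_comm (s := cx c x)]
  refine sum_le_sum fun y hy => ?_
  rw [← card_filter, ← card_filter]
  -- the largest `j`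
  rcases ((Icc 1 3).filter (fun j => y ∈ un (TJ c x j))).eq_empty_or_nonempty with h0 | hne
  · rw [h0]; simp
  · obtain ⟨j, hj, hjmax⟩ := exists_max_image _ (fun j => j) hne
    rw [mem_filter, mem_Icc] at hj
    obtain ⟨⟨hj1, hj3⟩, hyj⟩ := hj
    obtain ⟨g, hg, hyg⟩ := mem_biUnion.1 hyj
    rw [TJ, mem_filter] at hg
    calc ((Icc 1 3).filter (fun j => y ∈ un (TJ c x j))).card ≤ (Icc 1 j).card := by
          refine card_le_card ?_
          intro i hi
          have h1 := hjmax i hi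
          rw [mem_filter, mem_Icc] at hi
          exact mem_Icc.2 ⟨hi.1.1, h1⟩
      _ = j := by simp
      _ ≤ mult c x g := hg.2.2
      _ ≤ _ := by
        rw [mult]
        refine card_le_card ?_
        intro F hF
        rw [mem_filter] at hF ⊢
        exact ⟨hF.1, mem_biUnion.2 ⟨g, mem_filter.2 ⟨hF.2, hg.2.1⟩, hyg⟩⟩

/-- Lemma E -/
lemma Cls.lemE (hc : Cls e H c) (h : Sp e H) {x : V} (hK : (K c x).Nonempty) :
    ∑ F ∈ cx c x, (at' F.2 x).card + 6 ≤ (cx c x).card + 3 * (K c x).card := by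
  classical
  have h1 : ∑ F ∈ cx c x, ((un (TF F x) \ un (K c x)).card + (at' F.2 x).card) ≤
      ∑ F ∈ cx c x, ((TF F x).card + 1) := sum_le_sum fun F hF => hc.lemA h hF
  rw [sum_add_distrib, sum_add_distrib, hc.sumTF h x, sum_const, smul_eq_mul, mul_one] at h1
  have h2 := hc.sumNF x
  have h3 : ∑ j ∈ Icc 1 3, ((TJ c x j).card + 2) ≤
      ∑ j ∈ Icc 1 3, ((K c x).card + (un (TJ c x j) \ un (K c x)).card) := by
    refine sum_le_sum fun j _ => ?_
    exact hc.lemC h hK (filter_subset _ _) (fun b hb => (mem_filter.1 hb).2.1)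
  rw [sum_add_distrib, sum_add_distrib, sum_const, sum_const] at h3
  simp only [Nat.card_Icc, smul_eq_mul] at h3
  omega

/-- The inequality for a class. -/
theorem Cls.main (hc : Cls e H c) (h : Sp e H) : ∑ F ∈ c, F.2.card ≤ 8 * c.card := by
  classical
  rcases c.eq_empty_or_nonempty with rfl | hne
  · simp
  have hLH := hc.L_sub_H
  have hL3 : ∀ A ∈ L c, A.card = 3 := fun A hA => h.h3 A (hLH hA)
  have hmc : (L c).card ≤ c.card := card_image_le
  -- at least two lines
  have hm2 : 2 ≤ (L c).card := by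
    obtain ⟨F, hF⟩ := hne
    have hFf := hc.sub hF
    have hcomp := (mem_flags.1 hFf).2
    rw [comps, mem_filter] at hcomp
    obtain ⟨b, hb⟩ := hcomp.2.1
    exact one_lt_card.2 ⟨b, hc.snd_sub_L hF hb, F.1, mem_image_of_mem _ hF,
      (mem_M.1 (flags_M hFf hb)).2.1⟩
  have hun := h.sp _ hLH hm2 hc.small.le
  -- (1) pointwise inequality
  have hpt : ∀ x ∈ un (L c), ∑ F ∈ cx c x, (at' F.2 x).card + 4 + (K c x).card ≤
      4 * (at' (L c) x).card + (cx c x).card := by
    intro x hx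
    have hdeg : 1 ≤ (at' (L c) x).card := by
      obtain ⟨A, hA, hxA⟩ := mem_biUnion.1 hx
      exact card_pos.2 ⟨A, mem_filter.2 ⟨hA, hxA⟩⟩
    have hKdeg : (K c x).card ≤ (at' (L c) x).card :=
      card_le_card fun l hl => mem_filter.2 ⟨K_sub_L x hl, K_mem_x hl⟩
    rcases (K c x).eq_empty_or_nonempty with h0 | hKne
    · have h1 : cx c x = ∅ := by
        rw [K, image_eq_empty] at h0; exact h0
      rw [h1, h0]
      simp only [sum_empty, card_empty]
      omega
    · have := hc.lemE h hKne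
      omega
  -- (2) summation
  have hsum := sum_le_sum hpt
  rw [sum_add_distrib, sum_add_distrib, sum_add_distrib, sum_const, smul_eq_mul, ← mul_sum,
    sum_deg hL3] at hsum
  -- (3) every pair (line, line of the flag) has a common point
  have hI : ∑ F ∈ c, F.2.card ≤ ∑ x ∈ un (L c), ∑ F ∈ cx c x, (at' F.2 x).card := by
    have e1 : ∀ x ∈ un (L c), ∑ F ∈ cx c x, (at' F.2 x).card
        = ∑ F ∈ c, if x ∈ F.1 then (at' F.2 x).card else 0 := by
      intro x _
      rw [cx, sum_filter]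
      refine sum_congr rfl fun F _ => ?_
      by_cases h1 : x ∈ F.1
      · by_cases h2 : ∃ b ∈ F.2, x ∈ b
        · simp [h1, h2]
        · have h3 : (at' F.2 x).card = 0 := by
            rw [card_eq_zero, eq_empty_iff_forall_notMem]
            intro b hb
            rw [mem_filter] at hb
            exact h2 ⟨b, hb.1, hb.2⟩
          rw [if_neg (fun hh => h2 hh.2), if_pos h1, h3]
      · simp [h1]
    rw [sum_congr rfl e1, sum_comm]
    refine sum_le_sum fun F hF => ?_
    have hFL : F.1 ⊆ un (L c) := fun y hy => mem_biUnion.2 ⟨F.1, mem_image_of_mem _ hF, hy⟩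
    rw [← sum_filter, filter_mem_eq_inter, inter_eq_right.2 hFL]
    calc F.2.card ≤ (F.1.biUnion (fun x => at' F.2 x)).card := by
          refine card_le_card ?_
          intro b hb
          obtain ⟨y, hy⟩ := (mem_M.1 (flags_M (hc.sub hF) hb)).2.2
          rw [mem_inter] at hy
          exact mem_biUnion.2 ⟨y, hy.2, mem_filter.2 ⟨hb, hy.1⟩⟩
      _ ≤ ∑ x ∈ F.1, (at' F.2 x).card := card_biUnion_le
  -- (4) multiplicities of lines
  have hmul : ∑ x ∈ un (L c), (cx c x).card + 3 * (L c).card ≤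
      ∑ x ∈ un (L c), (K c x).card + 3 * c.card := by
    have hp : ∀ x ∈ un (L c), (cx c x).card + (at' (L c) x).card ≤
        (K c x).card + (c.filter (fun F => x ∈ F.1)).card := by
      intro x _
      have hsub : cx c x ⊆ c.filter (fun F => x ∈ F.1) := by
        intro F hF
        rw [cx, mem_filter] at hF
        exact mem_filter.2 ⟨hF.1, hF.2.1⟩
      have h1 : at' (L c) x ⊆ K c x ∪ ((c.filter (fun F => x ∈ F.1)) \ cx c x).image Prod.fst := by
        intro l hl
        rw [mem_filter] at hl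
        obtain ⟨F, hF, rfl⟩ := mem_image.1 hl.1
        by_cases hFx : F ∈ cx c x
        · exact mem_union_left _ (fst_mem_K hFx)
        · exact mem_union_right _ (mem_image_of_mem _
            (mem_sdiff.2 ⟨mem_filter.2 ⟨hF, hl.2⟩, hFx⟩))
      have h2 := (card_le_card h1).trans ((card_union_le _ _).trans
        (Nat.add_le_add_left card_image_le _))
      have h3 := card_sdiff_add_card_eq_card hsub
      omega
    have hs := sum_le_sum hp
    rw [sum_add_distrib, sum_add_distrib, sum_deg hL3] at hs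
    have h5 : ∑ x ∈ un (L c), (c.filter (fun F => x ∈ F.1)).card = 3 * c.card := by
      simp only [card_filter]
      rw [sum_comm]
      have : ∀ F ∈ c, (∑ x ∈ un (L c), if x ∈ F.1 then 1 else 0) = 3 := by
        intro F hF
        have hFL : F.1 ⊆ un (L c) := fun y hy => mem_biUnion.2 ⟨F.1, mem_image_of_mem _ hF, hy⟩
        rw [← card_filter, filter_mem_eq_inter, inter_eq_right.2 hFL,
          hL3 F.1 (mem_image_of_mem _ hF)]
      rw [sum_congr rfl this, sum_const, smul_eq_mul, mul_comm]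
    rw [h5] at hs
    exact hs
  omega

end Pool.Agent.W848.ClassIneq
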