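import Pool.Agent.W848.ClassIneq

/-!
# Classes of flags
-/

set_option autoImplicit false

namespace Pool.Agent.W848.Classes

open Finset Pool.Agent.W848.TreeAvg Pool.Agent.W848.Star Pool.Agent.W848.Flags
  Pool.Agent.W848.ClassIneq

variable {V : Type*} [DecidableEq V]

/-- two flags see each other -/
def adj (e : ℕ) (H : Finset (Finset V)) (F F' : Finset V × Finset (Finset V)) : Prop :=
  F ∈ flags e H ∧ F' ∈ flags e H ∧ F'.1 ∈ F.2 ∧ F.1 ∈ F'.2

lemma adj_symm (e : ℕ) (H : Finset (Finset V)) {F F' : Finset V × Finset (Finset V)}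
    (h : adj e H F F') : adj e H F' F := by
  obtain ⟨h1, h2, h3, h4⟩ := h
  exact ⟨h2, h1, h4, h3⟩

/-- the equivalence relation -/
abbrev reach (e : ℕ) (H : Finset (Finset V)) := Relation.ReflTransGen (adj e H)

lemma reach_symm {e : ℕ} {H : Finset (Finset V)} {F F' : Finset V × Finset (Finset V)}
    (h : reach e H F F') : reach e H F' F := by
  induction h with
  | refl => exact Relation.ReflTransGen.refl
  | tail _ hadj ih => exact (Relation.ReflTransGen.single (adj_symm e H hadj)).trans ih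

open Classical in
/-- the class of a flag -/
noncomputable def cls (e : ℕ) (H : Finset (Finset V)) (F : Finset V × Finset (Finset V)) :
    Finset (Finset V × Finset (Finset V)) :=
  (flags e H).filter (fun F' => reach e H F F')

variable {e : ℕ} {H : Finset (Finset V)}

lemma mem_cls {F F' : Finset V × Finset (Finset V)} :
    F' ∈ cls e H F ↔ F' ∈ flags e H ∧ reach e H F F' := by
  simp [cls]

/-- every class is contained in a small family -/
lemma Cls.small' (h : Sp e H) {F₀ : Finset V × Finset (Finset V)} (hF₀ : F₀ ∈ flags e H) :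
    ∃ T : Finset (Finset V), T.card < e ∧ ∀ F ∈ cls e H F₀, F.1 ∈ T := by
  classical
  have hl0 : F₀.1 ∈ H := (mem_flags.1 hF₀).1
  have hM0 := flags_M hF₀
  have hcomp := (mem_flags.1 hF₀).2
  rw [comps, mem_filter, mem_powerset] at hcomp
  obtain ⟨-, hne, hlt, hun, -⟩ := hcomp
  have hl0n : F₀.1 ∉ F₀.2 := fun hh => notMem_M_self (hM0 hh)
  have hsub0 : insert F₀.1 F₀.2 ⊆ H := by
    intro b hb
    rw [mem_insert] at hb
    rcases hb with rfl | hb
    · exact hl0
    · exact (mem_M.1 (hM0 hb)).1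
  have hc0 : (insert F₀.1 F₀.2).card = F₀.2.card + 1 := card_insert_of_notMem hl0n
  have hun0 : (un (insert F₀.1 F₀.2)).card = F₀.2.card + 4 := by
    rw [un_insert, ← union_sdiff_self_eq_union, card_union_of_disjoint disjoint_sdiff, hun,
      h.h3 _ hl0]
    omega
  obtain ⟨T, hT, hmax⟩ := exists_max_image
    (H.powerset.filter (fun T => insert F₀.1 F₀.2 ⊆ T ∧ T.card ≤ e ∧ (un T).card ≤ T.card + 3))
    (fun T => T.card) ⟨insert F₀.1 F₀.2, by
      rw [mem_filter, mem_powerset]
      exact ⟨hsub0, Subset.refl _, by omega, by omega⟩⟩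
  rw [mem_filter, mem_powerset] at hT
  obtain ⟨hTH, h0T, hTe, hTf⟩ := hT
  have hTlt : T.card < e := by
    rcases Nat.lt_or_ge T.card e with hh | hh
    · exact hh
    · have heq : T.card = e := by omega
      have := h.free T hTH heq
      omega
  have hclosed : ∀ b ∈ H, 2 ≤ (b ∩ un T).card → b ∈ T := by
    intro b hb hb2
    by_contra hbT
    have hc : (insert b T).card = T.card + 1 := card_insert_of_notMem hbT
    have h1 := hmax (insert b T) (by
      rw [mem_filter, mem_powerset]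
      refine ⟨insert_subset hb hTH, h0T.trans (subset_insert _ _), by omega, ?_⟩
      rw [un_insert, hc]
      have h2 := card_union_add_card_inter b (un T)
      rw [h.h3 b hb] at h2
      omega)
    omega
  have hstep : ∀ F ∈ flags e H, F.1 ∈ T → (F.2 ∩ T).Nonempty → F.2 ⊆ T := by
    intro F hF hFT hFne
    by_contra hcon
    obtain ⟨b, hb, hbD, hnd⟩ := h.comps_conn (mem_flags.1 hF).1 (mem_flags.1 hF).2
      inter_subset_left hFne (fun hh => hcon (inter_eq_left.1 hh))
    have hbT : b ∉ T := fun hh => hbD (mem_inter.2 ⟨hb, hh⟩)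
    apply hbT
    have hbM := flags_M hF hb
    refine hclosed b (mem_M.1 hbM).1 ?_
    obtain ⟨y, hy⟩ := (mem_M.1 hbM).2.2
    rw [mem_inter] at hy
    rw [disjoint_left] at hnd
    push Not at hnd
    obtain ⟨z, hz1, hz2⟩ := hnd
    rw [mem_sdiff] at hz1
    refine one_lt_card.2 ⟨y, ?_, z, ?_, ?_⟩
    · exact mem_inter.2 ⟨hy.1, mem_biUnion.2 ⟨F.1, hFT, hy.2⟩⟩
    · exact mem_inter.2 ⟨hz1.1, biUnion_subset_biUnion_of_subset_left _ inter_subset_right hz2⟩
    · rintro rfl
      exact hz1.2 hy.2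
  refine ⟨T, hTlt, ?_⟩
  have key : ∀ F, reach e H F₀ F → F.1 ∈ T ∧ F.2 ⊆ T := by
    intro F hF
    induction hF with
    | refl => exact ⟨h0T (mem_insert_self _ _), (subset_insert _ _).trans h0T⟩
    | tail _ hadj ih =>
      obtain ⟨ih1, ih2⟩ := ih
      obtain ⟨a1, a2, a3, a4⟩ := hadj
      exact ⟨ih2 a3, hstep _ a2 (ih2 a3) ⟨_, mem_inter.2 ⟨a4, ih1⟩⟩⟩
  intro F hF
  exact (key F (mem_cls.1 hF).2).1

lemma cls_Cls (he : 3 ≤ e) (h : Sp e H) {F₀ : Finset V × Finset (Finset V)}
    (hF₀ : F₀ ∈ flags e H) : Cls e H (cls e H F₀) where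
  sub := fun F hF => (mem_cls.1 hF).1
  rev := by
    intro F hF b hb
    rw [mem_cls] at hF
    have hbM := flags_M hF.1 hb
    have hFH := (mem_flags.1 hF.1).1
    obtain ⟨T, hT, hFT⟩ := h.comps_cover he (mem_M.1 hbM).1 (M_symm hFH hbM)
    have hflag : (b, T) ∈ flags e H := mem_flags.2 ⟨(mem_M.1 hbM).1, hT⟩
    exact ⟨(b, T), mem_cls.2 ⟨hflag, hF.2.tail ⟨hF.1, hflag, hb, hFT⟩⟩, rfl, hFT⟩
  small := by
    classical
    obtain ⟨T, hT, hsub⟩ := Cls.small' h hF₀
    refine lt_of_le_of_lt (card_le_card ?_) hT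
    intro l hl
    obtain ⟨F, hF, rfl⟩ := mem_image.1 hl
    exact hsub F hF

/-- The averaging inequality for all flags. -/
theorem flags_avg (he : 3 ≤ e) (h : Sp e H) :
    ∑ F ∈ flags e H, F.2.card ≤ 8 * (flags e H).card := by
  classical
  have hmaps : ∀ F ∈ flags e H, cls e H F ∈ (flags e H).image (cls e H) :=
    fun F hF => mem_image_of_mem _ hF
  rw [← sum_fiberwise_of_maps_to hmaps, card_eq_sum_card_fiberwise hmaps, mul_sum]
  refine sum_le_sum fun c hc => ?_
  obtain ⟨F₀, hF₀, rfl⟩ := mem_image.1 hc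
  have heq : (flags e H).filter (fun F => cls e H F = cls e H F₀) = cls e H F₀ := by
    ext F
    rw [mem_filter, mem_cls]
    constructor
    · rintro ⟨h1, h2⟩
      have : F ∈ cls e H F := mem_cls.2 ⟨h1, Relation.ReflTransGen.refl⟩
      rw [h2, mem_cls] at this
      exact this
    · rintro ⟨h1, h2⟩
      refine ⟨h1, ?_⟩
      ext G
      rw [mem_cls, mem_cls]
      constructor
      · rintro ⟨g1, g2⟩; exact ⟨g1, h2.trans g2⟩
      · rintro ⟨g1, g2⟩; exact ⟨g1, (reach_symm h2).trans g2⟩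
  rw [heq]
  exact (cls_Cls he h hF₀).main h

/-- The flags at a line are disjoint outside it. -/
theorem flags_count (h : Sp e H) {W : Finset V} (hW : un H ⊆ W) :
    ∑ F ∈ flags e H, (F.2.card + 1) ≤ H.card * (W.card - 3) := by
  classical
  have e1 : ∑ F ∈ flags e H, (F.2.card + 1) = ∑ l ∈ H, ∑ T ∈ comps e H l, (T.card + 1) := by
    rw [flags, sum_filter, sum_product]
    refine sum_congr rfl fun l hl => ?_
    rw [← sum_filter]
    refine sum_congr ?_ fun _ _ => rfl
    ext T
    rw [mem_filter, mem_powerset]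
    constructor
    · exact fun hh => hh.2
    · intro hh
      refine ⟨?_, hh⟩
      rw [comps, mem_filter, mem_powerset] at hh
      exact fun b hb => (mem_M.1 (hh.1 hb)).1
  rw [e1, ← smul_eq_mul, ← sum_const]
  refine sum_le_sum fun l hl => ?_
  have e2 : ∀ T ∈ comps e H l, T.card + 1 = (un T \ l).card := by
    intro T hT
    rw [comps, mem_filter] at hT
    exact hT.2.2.2.1.symm
  rw [sum_congr rfl e2, ← card_biUnion]
  · have hlW : l ⊆ W := fun x hx => hW (mem_biUnion.2 ⟨l, hl, hx⟩)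
    rw [← h.h3 l hl, ← card_sdiff_of_subset hlW]
    refine card_le_card ?_
    intro x hx
    rw [mem_biUnion] at hx
    obtain ⟨T, hT, hxT⟩ := hx
    rw [mem_sdiff] at hxT ⊢
    refine ⟨hW ?_, hxT.2⟩
    rw [comps, mem_filter, mem_powerset] at hT
    exact biUnion_subset_biUnion_of_subset_left _ (fun b hb => (mem_M.1 (hT.1 hb)).1) hxT.1
  · intro T₁ hT₁ T₂ hT₂ hne
    change Disjoint (un T₁ \ l) (un T₂ \ l)
    rw [disjoint_left]
    intro x hx1 hx2
    rw [mem_sdiff] at hx1 hx2
    exact hne (h.comps_eq' hl hT₁ hT₂ hx1.2 hx1.1 hx2.1)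

/-- Intersecting pairs are covered by flags. -/
theorem inter_le (he : 3 ≤ e) (h : Sp e H) :
    (inter H).card ≤ ∑ F ∈ flags e H, F.2.card := by
  classical
  have hsub : inter H ⊆ (flags e H).biUnion (fun F => F.2.image (fun b => (F.1, b))) := by
    rintro ⟨A, B⟩ hAB
    simp only [inter, mem_filter, mem_product] at hAB
    obtain ⟨⟨hA, hB⟩, hne, hi⟩ := hAB
    obtain ⟨T, hT, hBT⟩ := h.comps_cover he hA
      (mem_M.2 ⟨hB, hne.symm, by rw [inter_comm]; exact hi⟩)
    rw [mem_biUnion]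
    exact ⟨(A, T), mem_flags.2 ⟨hA, hT⟩, mem_image.2 ⟨B, hBT, rfl⟩⟩
  calc (inter H).card ≤ _ := card_le_card hsub
    _ ≤ ∑ F ∈ flags e H, (F.2.image (fun b => (F.1, b))).card := card_biUnion_le
    _ ≤ _ := sum_le_sum fun F _ => card_image_le

theorem nine_inter (he : 3 ≤ e) (h : Sp e H) {W : Finset V} (hW : un H ⊆ W) :
    9 * (inter H).card ≤ 8 * (H.card * (W.card - 3)) := by
  have h1 := flags_avg he h
  have h2 := flags_count h hW
  have h3 := inter_le he h
  rw [sum_add_distrib, sum_const, smul_eq_mul, mul_one] at h2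
  omega

end Pool.Agent.W848.Classes
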