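import Pool.Agent.W848.TreeAvg

/-!
# Growing a dense family of edges
-/

set_option autoImplicit false

namespace Pool.Agent.W848.Growth

open Finset Pool.Agent.W848.TreeAvg

variable {V : Type*} [DecidableEq V]

/-- If no `e` edges have union of size at most `(r-2)e+3` then a nonempty family `S₀` of edges with
`|U| ≤ (r-2)|S₀|+2`, `U` its union, has small degree sum over `U`. -/
theorem growth (r e : ℕ) (hr : 2 ≤ r) (H S₀ : Finset (Finset V)) (W : Finset V)
    (hW : un H ⊆ W)
    (hH : ∀ g ∈ H, g.card = r)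
    (hfree : ∀ T ⊆ H, T.card = e → (r - 2) * e + 3 < (un T).card)
    (hS₀H : S₀ ⊆ H) (hS₀ : S₀.Nonempty) (hS₀e : S₀.card ≤ e)
    (hS₀f : (un S₀).card ≤ (r - 2) * S₀.card + 2) :
    ((r - 2) * (e - 2) + 1) * ∑ x ∈ un S₀, (H.filter (fun g => x ∈ g)).card ≤
      (e - 2) * W.card + ((r - 2) * (e - 2) + 1) * (r * (e - 1)) := by
  classical
  set P : Finset (Finset (Finset V)) := H.powerset.filter
      (fun T => S₀ ⊆ T ∧ T.card ≤ e ∧ (un T).card ≤ (r - 2) * T.card + 2) with hP
  have hP0 : S₀ ∈ P := by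
    rw [hP, mem_filter, mem_powerset]
    exact ⟨hS₀H, Subset.refl _, hS₀e, hS₀f⟩
  obtain ⟨S, hSP, hSmax⟩ := exists_max_image P (fun T => T.card) ⟨_, hP0⟩
  rw [hP, mem_filter, mem_powerset] at hSP
  obtain ⟨hSH, hlS, hSe, hSf⟩ := hSP
  have hSlt : S.card < e := by
    rcases Nat.lt_or_ge S.card e with h | h
    · exact h
    · have heq : S.card = e := le_antisymm hSe h
      have := hfree S hSH heq
      rw [heq] at hSf
      omega
  have hmax : ∀ T ⊆ H, S ⊆ T → S.card < T.card → T.card ≤ e →
      (r - 2) * T.card + 2 < (un T).card := by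
    intro T hTH hST hlt hTe
    by_contra hcon
    have hTP : T ∈ P := by
      rw [hP, mem_filter, mem_powerset]
      exact ⟨hTH, hlS.trans hST, hTe, not_lt.1 hcon⟩
    exact absurd (hSmax T hTP) (not_le.2 hlt)
  have hclosed : ∀ g ∈ H, g ∉ S → (g ∩ un S).card ≤ 1 := by
    intro g hg hgS
    by_contra hcon
    have h1 := hmax (insert g S) (insert_subset hg hSH) (subset_insert _ _)
      (by rw [card_insert_of_notMem hgS]; omega) (by rw [card_insert_of_notMem hgS]; omega)
    rw [un_insert, card_insert_of_notMem hgS] at h1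
    have h2 := card_union_add_card_inter g (un S)
    rw [hH g hg] at h2
    have h3 : (r - 2) * (S.card + 1) = (r - 2) * S.card + (r - 2) := by ring
    omega
  set G : Finset (Finset V) := H.filter (fun g => g ∉ S ∧ (g ∩ un S).card = 1) with hG
  have hforest := forest_bound r e hr H S hH hSH (hS₀.mono hlS) hfree hSlt hSf hmax G
    (filter_subset _ _)
    (by rw [disjoint_left]; intro g hgS hgG; exact (mem_filter.1 hgG).2.1 hgS)
    (fun g hg => (mem_filter.1 hg).2.2)
  have hlU : un S₀ ⊆ un S := biUnion_subset_biUnion_of_subset_left _ hlS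
  have hcnt : ∀ F : Finset (Finset V),
      ∑ x ∈ un S₀, (F.filter (fun g => x ∈ g)).card = ∑ g ∈ F, (g ∩ un S₀).card := by
    intro F
    simp only [card_filter]
    rw [sum_comm]
    refine sum_congr rfl fun g _ => ?_
    rw [← card_filter, filter_mem_eq_inter, inter_comm]
  have hdeg : ∑ x ∈ un S₀, (H.filter (fun g => x ∈ g)).card ≤ G.card + r * S.card := by
    have e1 : ∀ x ∈ un S₀, (H.filter (fun g => x ∈ g)).card
        ≤ (G.filter (fun g => x ∈ g)).card + (S.filter (fun g => x ∈ g)).card := by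
      intro x hx
      have hsub : H.filter (fun g => x ∈ g) ⊆
          G.filter (fun g => x ∈ g) ∪ S.filter (fun g => x ∈ g) := by
        intro g hg
        rw [mem_filter] at hg
        by_cases hgS : g ∈ S
        · exact mem_union_right _ (mem_filter.2 ⟨hgS, hg.2⟩)
        · refine mem_union_left _ (mem_filter.2 ⟨mem_filter.2 ⟨hg.1, hgS, ?_⟩, hg.2⟩)
          refine le_antisymm (hclosed g hg.1 hgS) ?_
          exact card_pos.2 ⟨x, mem_inter.2 ⟨hg.2, hlU hx⟩⟩
      exact (card_le_card hsub).trans (card_union_le _ _)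
    have e2 : ∑ x ∈ un S₀, (G.filter (fun g => x ∈ g)).card ≤ G.card := by
      rw [hcnt]
      calc ∑ g ∈ G, (g ∩ un S₀).card ≤ ∑ g ∈ G, 1 := by
            refine sum_le_sum fun g hg => ?_
            rw [← (mem_filter.1 hg).2.2]
            exact card_le_card (inter_subset_inter_left hlU)
        _ = G.card := by simp
    have e3 : ∑ x ∈ un S₀, (S.filter (fun g => x ∈ g)).card ≤ r * S.card := by
      rw [hcnt]
      calc ∑ g ∈ S, (g ∩ un S₀).card ≤ ∑ g ∈ S, r := by
            refine sum_le_sum fun g hg => ?_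
            rw [← hH g (hSH hg)]
            exact card_le_card inter_subset_left
        _ = r * S.card := by rw [sum_const, smul_eq_mul, mul_comm]
    calc ∑ x ∈ un S₀, (H.filter (fun g => x ∈ g)).card
        ≤ ∑ x ∈ un S₀, ((G.filter (fun g => x ∈ g)).card + (S.filter (fun g => x ∈ g)).card) :=
          sum_le_sum e1
      _ = ∑ x ∈ un S₀, (G.filter (fun g => x ∈ g)).card +
          ∑ x ∈ un S₀, (S.filter (fun g => x ∈ g)).card := sum_add_distrib
      _ ≤ _ := add_le_add e2 e3
  have hUn : (un G \ un S).card ≤ W.card := by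
    refine card_le_card (sdiff_subset.trans ?_)
    exact (biUnion_subset_biUnion_of_subset_left _ (filter_subset _ _)).trans hW
  have hS1 : S.card ≤ e - 1 := by omega
  calc ((r - 2) * (e - 2) + 1) * ∑ x ∈ un S₀, (H.filter (fun g => x ∈ g)).card
      ≤ ((r - 2) * (e - 2) + 1) * (G.card + r * S.card) := Nat.mul_le_mul_left _ hdeg
    _ = ((r - 2) * (e - 2) + 1) * G.card + ((r - 2) * (e - 2) + 1) * (r * S.card) := by ring
    _ ≤ _ := by
        refine add_le_add (hforest.trans (Nat.mul_le_mul_left _ hUn)) ?_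
        exact Nat.mul_le_mul_left _ (Nat.mul_le_mul_left _ hS1)

end Pool.Agent.W848.Growth
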