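import Pool.Agent.W848.Star
import Pool.Agent.W848.Growth

/-!
# Linear triple systems with more than half of the pairs covered

A linear 3-graph on `n` vertices in which no `k` edges, `e ≤ k ≤ 2e-3`, span at most `k+3`
vertices, has at most `n^2/12 + O(n)` edges.
-/

set_option autoImplicit false

namespace Pool.Agent.W848.Window

open Finset Pool.Agent.W848.TreeAvg Pool.Agent.W848.Star Pool.Agent.W848.Growth

variable {V : Type*} [DecidableEq V]

/-- the hypotheses of the theorem -/
structure Hyp (e : ℕ) (H : Finset (Finset V)) : Prop where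
  h3 : ∀ A ∈ H, A.card = 3
  lin : ∀ A ∈ H, ∀ B ∈ H, A ≠ B → (A ∩ B).card ≤ 1
  win : ∀ S ⊆ H, e ≤ S.card → S.card ≤ 2 * e - 3 → S.card + 3 < (un S).card

lemma Hyp.mono {e : ℕ} {H H' : Finset (Finset V)} (h : Hyp e H) (hs : H' ⊆ H) : Hyp e H' :=
  ⟨fun A hA => h.h3 A (hs hA), fun A hA B hB => h.lin A (hs hA) B (hs hB),
    fun S hS => h.win S (hS.trans hs)⟩

/-- three lines of a linear system span at least six points, two span at least five -/
lemma un_ge_five {H : Finset (Finset V)} (h3 : ∀ A ∈ H, A.card = 3)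
    (lin : ∀ A ∈ H, ∀ B ∈ H, A ≠ B → (A ∩ B).card ≤ 1) {S : Finset (Finset V)} (hS : S ⊆ H)
    (h2 : 2 ≤ S.card) : 5 ≤ (un S).card := by
  obtain ⟨A, hA, B, hB, hAB⟩ := one_lt_card.1 (show 1 < S.card by omega)
  have h1 := card_union_add_card_inter A B
  have h5 := lin A (hS hA) B (hS hB) hAB
  have h6 : A ∪ B ⊆ un S :=
    union_subset (fun x hx => mem_biUnion.2 ⟨A, hA, hx⟩) (fun x hx => mem_biUnion.2 ⟨B, hB, hx⟩)
  have h7 := card_le_card h6
  have h8 := h3 A (hS hA)
  have h9 := h3 B (hS hB)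
  omega

lemma un_ge_six {H : Finset (Finset V)} (h3 : ∀ A ∈ H, A.card = 3)
    (lin : ∀ A ∈ H, ∀ B ∈ H, A ≠ B → (A ∩ B).card ≤ 1) {S : Finset (Finset V)} (hS : S ⊆ H)
    (hS3 : 3 ≤ S.card) : 6 ≤ (un S).card := by
  obtain ⟨A, hA, B, hB, C, hC, hAB, hAC, hBC⟩ := two_lt_card.1 (show 2 < S.card by omega)
  by_contra hcon
  have hlt : (un S).card ≤ 5 := by omega
  have hsub : ∀ D ∈ S, D ⊆ un S := fun D hD x hx => mem_biUnion.2 ⟨D, hD, hx⟩
  -- two triples in five points meet
  have meet : ∀ D ∈ S, ∀ E ∈ S, D ≠ E → (D ∩ E).card = 1 ∧ D ∪ E = un S := by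
    intro D hD E hE hDE
    have h1 := card_union_add_card_inter D E
    have h2 := lin D (hS hD) E (hS hE) hDE
    have h4 := h3 D (hS hD)
    have h5 := h3 E (hS hE)
    have h6 : D ∪ E ⊆ un S := union_subset (hsub D hD) (hsub E hE)
    have h7 := card_le_card h6
    exact ⟨by omega, eq_of_subset_of_card_le h6 (by omega)⟩
  obtain ⟨hAB1, hABu⟩ := meet A hA B hB hAB
  obtain ⟨hAC1, _⟩ := meet A hA C hC hAC
  obtain ⟨hBC1, _⟩ := meet B hB C hC hBC
  have h1 : C ∩ (A ∪ B) = C := by
    rw [hABu]; exact inter_eq_left.2 (hsub C hC)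
  have h2 : C ∩ (A ∪ B) = (A ∩ C) ∪ (B ∩ C) := by
    rw [inter_union_distrib_left, inter_comm C A, inter_comm C B]
  have h4 := card_union_le (A ∩ C) (B ∩ C)
  rw [← h2, h1, h3 C (hS hC)] at h4
  omega

/-- In a system with all degrees at least about `n/6`, every family of between two and `2e-3`
edges spans at least three more points than it has edges. -/
lemma sparse {e : ℕ} (he : 3 ≤ e) {H : Finset (Finset V)} (h : Hyp e H) {W : Finset V}
    (hW : un H ⊆ W) (hdeg : ∀ x ∈ W, 2 * W.card + 6 * e + 1 ≤ 12 * (at' H x).card)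
    {S : Finset (Finset V)} (hS : S ⊆ H) (h2 : 2 ≤ S.card) (hS2 : S.card ≤ 2 * e - 3) :
    S.card + 3 ≤ (un S).card := by
  rcases Nat.lt_or_ge S.card e with hlt | hge
  · by_contra hcon
    have hle : (un S).card ≤ S.card + 2 := by omega
    have hS3 : 3 ≤ S.card := by
      have := un_ge_five h.h3 h.lin hS h2
      omega
    have h6 := un_ge_six h.h3 h.lin hS hS3
    have hg := growth 3 e (by norm_num) H S W hW h.h3
      (fun T hT hTe => by
        have := h.win T hT (by omega) (by omega)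
        omega) hS (card_pos.1 (by omega)) hlt.le (by omega)
    have hsum : 6 * (2 * W.card + 6 * e + 1) ≤ 12 * ∑ x ∈ un S, (at' H x).card := by
      rw [mul_sum]
      calc 6 * (2 * W.card + 6 * e + 1) ≤ (un S).card * (2 * W.card + 6 * e + 1) :=
            Nat.mul_le_mul_right _ h6
        _ = ∑ x ∈ un S, (2 * W.card + 6 * e + 1) := by rw [sum_const, smul_eq_mul]
        _ ≤ _ := sum_le_sum fun x hx => hdeg x
            (hW (biUnion_subset_biUnion_of_subset_left _ hS hx))
    obtain ⟨d, rfl⟩ := Nat.exists_eq_add_of_le he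
    have e1 : 3 + d - 2 = d + 1 := by omega
    have e2 : 3 + d - 1 = d + 2 := by omega
    rw [e1, e2] at hg
    norm_num at hg
    have hg' : (d + 2) * ∑ x ∈ un S, (at' H x).card ≤ (d + 1) * W.card + (d + 2) * (3 * (d + 2)) :=
      hg
    generalize (∑ x ∈ un S, (at' H x).card) = s at hsum hg'
    generalize W.card = w at hsum hg'
    have h7 : (d + 2) * (6 * (2 * w + 6 * (3 + d) + 1)) ≤ (d + 2) * (12 * s) :=
      Nat.mul_le_mul_left _ hsum
    nlinarith
  · have := h.win S hS hge hS2
    omega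

/-- tight families -/
def Tight (e : ℕ) (T : Finset (Finset V)) : Prop :=
  2 ≤ T.card ∧ T.card < e ∧ (un T).card = T.card + 3

instance (e : ℕ) (T : Finset (Finset V)) : Decidable (Tight e T) := by
  unfold Tight; infer_instance

/-- maximal tight families -/
def planes (e : ℕ) (H : Finset (Finset V)) : Finset (Finset (Finset V)) :=
  H.powerset.filter (fun T => Tight e T ∧ ∀ T' ∈ H.powerset, T ⊆ T' → Tight e T' → T' ⊆ T)

/-- Two tight families with a common edge and a common vertex outside it have a tight union. -/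
lemma merge {e : ℕ} (he : 3 ≤ e) {H : Finset (Finset V)} (h : Hyp e H)
    (hsp : ∀ S ⊆ H, 2 ≤ S.card → S.card ≤ 2 * e - 3 → S.card + 3 ≤ (un S).card)
    {T₁ T₂ : Finset (Finset V)} (h1H : T₁ ⊆ H) (h2H : T₂ ⊆ H) (h1 : Tight e T₁) (h2 : Tight e T₂)
    {l : Finset V} (hl1 : l ∈ T₁) (hl2 : l ∈ T₂) {x : V} (hx1 : x ∈ un T₁) (hx2 : x ∈ un T₂)
    (hxl : x ∉ l) : Tight e (T₁ ∪ T₂) := by
  classical
  obtain ⟨a1, b1, c1⟩ := h1
  obtain ⟨a2, b2, c2⟩ := h2
  have hc := card_union_add_card_inter T₁ T₂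
  have hu := card_union_add_card_inter (un T₁) (un T₂)
  rw [← un_union] at hu
  have hlI : l ∈ T₁ ∩ T₂ := mem_inter.2 ⟨hl1, hl2⟩
  have hIpos : 1 ≤ (T₁ ∩ T₂).card := card_pos.2 ⟨l, hlI⟩
  have hIH : T₁ ∩ T₂ ⊆ H := inter_subset_left.trans h1H
  have hle1 : (T₁ ∩ T₂).card ≤ T₁.card := card_le_card inter_subset_left
  have hle2 : T₁.card ≤ (T₁ ∪ T₂).card := card_le_card subset_union_left
  -- the intersection is large
  have hinter : (T₁ ∩ T₂).card + 3 ≤ (un T₁ ∩ un T₂).card := by
    rcases Nat.lt_or_ge (T₁ ∩ T₂).card 2 with hlt | hge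
    · have hins : insert x l ⊆ un T₁ ∩ un T₂ := by
        intro y hy
        rw [mem_insert] at hy
        rcases hy with rfl | hy
        · exact mem_inter.2 ⟨hx1, hx2⟩
        · exact mem_inter.2 ⟨mem_biUnion.2 ⟨l, hl1, hy⟩, mem_biUnion.2 ⟨l, hl2, hy⟩⟩
      have h4 := card_le_card hins
      rw [card_insert_of_notMem hxl, h.h3 l (h1H hl1)] at h4
      omega
    · have h5 := hsp (T₁ ∩ T₂) hIH hge (by omega)
      have h6 : un (T₁ ∩ T₂) ⊆ un T₁ ∩ un T₂ :=
        subset_inter (biUnion_subset_biUnion_of_subset_left _ inter_subset_left)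
          (biUnion_subset_biUnion_of_subset_left _ inter_subset_right)
      exact h5.trans (card_le_card h6)
  have hUH : T₁ ∪ T₂ ⊆ H := union_subset h1H h2H
  have hUcard : (T₁ ∪ T₂).card ≤ 2 * e - 3 := by omega
  have hUle : (un (T₁ ∪ T₂)).card ≤ (T₁ ∪ T₂).card + 3 := by omega
  have hlt : (T₁ ∪ T₂).card < e := by
    by_contra hge
    have := h.win _ hUH (not_lt.1 hge) hUcard
    omega
  have := hsp _ hUH (by omega) hUcard
  exact ⟨by omega, hlt, by omega⟩

lemma exists_plane {e : ℕ} {H T : Finset (Finset V)} (hTH : T ⊆ H) (hT : Tight e T) :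
    ∃ P ∈ planes e H, T ⊆ P := by
  classical
  obtain ⟨P, hP, hmax⟩ := exists_max_image
    (H.powerset.filter (fun T' => T ⊆ T' ∧ Tight e T')) (fun T' => T'.card)
    ⟨T, mem_filter.2 ⟨mem_powerset.2 hTH, Subset.refl _, hT⟩⟩
  rw [mem_filter] at hP
  refine ⟨P, mem_filter.2 ⟨hP.1, hP.2.2, ?_⟩, hP.2.1⟩
  intro T' hT' hPT' htight
  have h1 := hmax T' (mem_filter.2 ⟨hT', hP.2.1.trans hPT', htight⟩)
  rw [eq_of_subset_of_card_le hPT' h1]

/-- the main counting argument -/
theorem bound_of_deg {e : ℕ} (he : 3 ≤ e) {H : Finset (Finset V)} (h : Hyp e H) {W : Finset V}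
    (hW : un H ⊆ W) (hdeg : ∀ x ∈ W, 2 * W.card + 6 * e + 1 ≤ 12 * (at' H x).card) :
    12 * H.card ≤ W.card ^ 2 + W.card := by
  classical
  have hsp : ∀ S ⊆ H, 2 ≤ S.card → S.card ≤ 2 * e - 3 → S.card + 3 ≤ (un S).card :=
    fun S hS h2 hS2 => sparse he h hW hdeg hS h2 hS2
  rcases H.eq_empty_or_nonempty with rfl | hHne
  · simp
  -- (1) the planes cover the intersecting pairs
  have hcov : inter H ⊆ (planes e H).biUnion inter := by
    rintro ⟨A, B⟩ hAB
    simp only [inter, mem_filter, mem_product] at hAB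
    obtain ⟨⟨hA, hB⟩, hne, hi⟩ := hAB
    have hc2 : ({A, B} : Finset (Finset V)).card = 2 := card_pair hne
    have hsub : ({A, B} : Finset (Finset V)) ⊆ H := by
      intro C hC
      rw [mem_insert, mem_singleton] at hC
      rcases hC with rfl | rfl <;> assumption
    have hun : (un ({A, B} : Finset (Finset V))).card = 5 := by
      have h1 : un ({A, B} : Finset (Finset V)) = A ∪ B := by simp [un]
      rw [h1]
      have h2 := card_union_add_card_inter A B
      have h4 := h.lin A hA B hB hne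
      have h5 := card_pos.2 hi
      have h6 := h.h3 A hA
      have h7 := h.h3 B hB
      omega
    obtain ⟨P, hP, hTP⟩ := exists_plane hsub
      (show Tight e ({A, B} : Finset (Finset V)) from ⟨hc2.ge, by omega, by rw [hun, hc2]⟩)
    refine mem_biUnion.2 ⟨P, hP, ?_⟩
    simp only [inter, mem_filter, mem_product]
    exact ⟨⟨hTP (by simp), hTP (by simp)⟩, hne, hi⟩
  have hpl : ∀ T ∈ planes e H, T ⊆ H ∧ Tight e T := by
    intro T hT
    rw [planes, mem_filter, mem_powerset] at hT
    exact ⟨hT.1, hT.2.1⟩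
  -- (2) the bound in one plane
  have hstar : ∀ T ∈ planes e H, 4 * (inter T).card ≤ 3 * T.card ^ 2 := by
    intro T hT
    obtain ⟨hTH, hT1, hT2, hT3⟩ := hpl T hT
    refine star T (fun A hA => h.h3 A (hTH hA)) (fun A hA B hB => h.lin A (hTH hA) B (hTH hB))
      ?_ hT3
    intro S hS hS5
    have h1 := card_le_card hS
    have := hsp S (hS.trans hTH) (by omega) (by omega)
    omega
  -- (3) the planes through an edge are disjoint outside it
  have hcount : ∑ T ∈ planes e H, T.card ^ 2 ≤ H.card * (W.card - 3) := by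
    have e1 : ∀ T ∈ planes e H, T.card ^ 2 = ∑ l ∈ H, if l ∈ T then (un T \ l).card else 0 := by
      intro T hT
      obtain ⟨hTH, hT1, hT2, hT3⟩ := hpl T hT
      rw [← sum_filter, filter_mem_eq_inter, inter_eq_right.2 hTH]
      have e2 : ∀ l ∈ T, (un T \ l).card = T.card := by
        intro l hl
        have hlT : l ⊆ un T := fun x hx => mem_biUnion.2 ⟨l, hl, hx⟩
        have := card_sdiff_add_card_eq_card hlT
        rw [h.h3 l (hTH hl)] at this
        omega
      rw [sum_congr rfl e2, sum_const, smul_eq_mul, sq]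
    rw [sum_congr rfl e1, sum_comm]
    calc ∑ l ∈ H, ∑ T ∈ planes e H, (if l ∈ T then (un T \ l).card else 0)
        ≤ ∑ l ∈ H, (W.card - 3) := by
          refine sum_le_sum fun l hl => ?_
          rw [← sum_filter, ← card_biUnion]
          · have hlW : l ⊆ W := fun x hx => hW (mem_biUnion.2 ⟨l, hl, hx⟩)
            rw [← h.h3 l hl, ← card_sdiff_of_subset hlW]
            refine card_le_card ?_
            intro x hx
            rw [mem_biUnion] at hx
            obtain ⟨T, hT, hxT⟩ := hx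
            rw [mem_sdiff] at hxT ⊢
            refine ⟨hW ?_, hxT.2⟩
            exact biUnion_subset_biUnion_of_subset_left _ (hpl T (mem_filter.1 hT).1).1 hxT.1
          · intro T₁ hT₁ T₂ hT₂ hne
            change Disjoint (un T₁ \ l) (un T₂ \ l)
            rw [disjoint_left]
            intro x hx1 hx2
            rw [mem_sdiff] at hx1 hx2
            have hm1 := mem_filter.1 hT₁
            have hm2 := mem_filter.1 hT₂
            have hp1 := hpl _ hm1.1
            have hp2 := hpl _ hm2.1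
            have hM := merge he h hsp hp1.1 hp2.1 hp1.2 hp2.2 hm1.2 hm2.2 hx1.1 hx2.1 hx1.2
            have hUH : T₁ ∪ T₂ ∈ H.powerset := mem_powerset.2 (union_subset hp1.1 hp2.1)
            have q1 := (mem_filter.1 hm1.1).2.2 _ hUH subset_union_left hM
            have q2 := (mem_filter.1 hm2.1).2.2 _ hUH subset_union_right hM
            exact hne (Subset.antisymm (subset_union_left.trans q2) (subset_union_right.trans q1))
      _ = H.card * (W.card - 3) := by rw [sum_const, smul_eq_mul]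
  have hI : 4 * (inter H).card ≤ 3 * (H.card * (W.card - 3)) := by
    calc 4 * (inter H).card ≤ 4 * ∑ T ∈ planes e H, (inter T).card :=
          Nat.mul_le_mul_left _ ((card_le_card hcov).trans card_biUnion_le)
      _ = ∑ T ∈ planes e H, 4 * (inter T).card := by rw [mul_sum]
      _ ≤ ∑ T ∈ planes e H, 3 * T.card ^ 2 := sum_le_sum hstar
      _ = 3 * ∑ T ∈ planes e H, T.card ^ 2 := by rw [mul_sum]
      _ ≤ _ := Nat.mul_le_mul_left _ hcount
  -- (4) Cauchy-Schwarz
  have hdW : ∑ x ∈ W, (at' H x).card = 3 * H.card := by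
    simp only [at', card_filter]
    rw [sum_comm]
    have : ∀ A ∈ H, ∑ x ∈ W, (if x ∈ A then 1 else 0) = 3 := by
      intro A hA
      have hAW : A ⊆ W := fun x hx => hW (mem_biUnion.2 ⟨A, hA, hx⟩)
      rw [← card_filter, filter_mem_eq_inter, inter_eq_right.2 hAW, h.h3 A hA]
    rw [sum_congr rfl this, sum_const, smul_eq_mul, mul_comm]
  have hsq : ∑ x ∈ W, (at' H x).card ^ 2 ≤ 3 * H.card + (inter H).card := by
    have e1 : ∀ x ∈ W, (at' H x).card ^ 2
        = ∑ p ∈ H ×ˢ H, if x ∈ p.1 ∩ p.2 then 1 else 0 := by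
      intro x _
      rw [← card_filter, sq, ← card_product]
      congr 1
      ext ⟨A, B⟩
      simp only [at', mem_product, mem_filter, mem_inter]
      tauto
    rw [sum_congr rfl e1, sum_comm]
    have e2 : ∀ p ∈ H ×ˢ H, (∑ x ∈ W, if x ∈ p.1 ∩ p.2 then 1 else 0)
        ≤ (if p.1 = p.2 then 3 else 0) +
          (if p.1 ≠ p.2 ∧ (p.1 ∩ p.2).Nonempty then 1 else 0) := by
      rintro ⟨A, B⟩ hp
      rw [mem_product] at hp
      obtain ⟨hA, hB⟩ := hp
      dsimp only at hA hB ⊢
      have h1 : (∑ x ∈ W, if x ∈ A ∩ B then 1 else 0) ≤ (A ∩ B).card := by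
        rw [← card_filter, filter_mem_eq_inter]
        exact card_le_card inter_subset_right
      by_cases hAB : A = B
      · subst hAB
        rw [inter_self, h.h3 A hA] at h1
        simp only [if_true, ne_eq, not_true, false_and, if_false, add_zero]
        simpa using h1
      · have h2 := h.lin A hA B hB hAB
        rcases (A ∩ B).eq_empty_or_nonempty with h0 | h0
        · rw [h0]; simp
        · simp only [hAB, if_false, ne_eq, not_false_eq_true, h0, and_self, if_true, zero_add]
          exact h1.trans h2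
    refine (sum_le_sum e2).trans ?_
    rw [sum_add_distrib]
    refine add_le_add (le_of_eq ?_) (le_of_eq ?_)
    · rw [← sum_filter, sum_const, smul_eq_mul]
      have : ((H ×ˢ H).filter (fun p => p.1 = p.2)).card = H.card := by
        rw [← card_image_of_injective H (f := fun A => (A, A)) (fun A B hAB => (Prod.mk.inj hAB).1)]
        congr 1
        ext ⟨A, B⟩
        simp only [mem_filter, mem_product, mem_image, Prod.mk.injEq]
        constructor
        · rintro ⟨⟨hA, _⟩, rfl⟩; exact ⟨A, hA, rfl, rfl⟩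
        · rintro ⟨C, hC, rfl, rfl⟩; exact ⟨⟨hC, hC⟩, rfl⟩
      rw [this, mul_comm]
    · rw [inter, card_filter]
  have hCS : (3 * H.card) ^ 2 ≤ W.card * (3 * H.card + (inter H).card) := by
    have := sq_sum_le_card_mul_sum_sq (s := W) (f := fun x => (at' H x).card)
    rw [hdW] at this
    exact this.trans (Nat.mul_le_mul_left _ hsq)
  have hHpos : 0 < H.card := card_pos.2 hHne
  have hW3 : 3 ≤ W.card := by
    obtain ⟨A, hA⟩ := hHne
    rw [← h.h3 A hA]
    exact card_le_card fun x hx => hW (mem_biUnion.2 ⟨A, hA, hx⟩)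
  obtain ⟨w, hw⟩ := Nat.exists_eq_add_of_le hW3
  rw [hw] at hI hCS ⊢
  rw [Nat.add_sub_cancel_left] at hI
  generalize (inter H).card = I at hI hCS
  generalize H.card = N at hI hCS hHpos ⊢
  have hkey : N * (12 * N) ≤ N * ((3 + w) ^ 2 + (3 + w)) := by nlinarith
  exact Nat.le_of_mul_le_mul_left hkey hHpos

/-- **Main theorem.** -/
theorem bound {e : ℕ} (he : 3 ≤ e) (k : ℕ) : ∀ (W : Finset V) (H : Finset (Finset V)), W.card = k →
    Hyp e H → un H ⊆ W → 12 * H.card ≤ k ^ 2 + (6 * e + 2) * k := by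
  classical
  induction k with
  | zero =>
    intro W H hWk h hW
    have : H = ∅ := by
      rw [eq_empty_iff_forall_notMem]
      intro A hA
      have h1 : A ⊆ W := fun x hx => hW (mem_biUnion.2 ⟨A, hA, hx⟩)
      have h2 := card_le_card h1
      rw [hWk, h.h3 A hA] at h2
      omega
    simp [this]
  | succ k ih =>
    intro W H hWk h hW
    by_cases hdeg : ∀ x ∈ W, 2 * W.card + 6 * e + 1 ≤ 12 * (at' H x).card
    · have := bound_of_deg he h hW hdeg
      rw [hWk] at this
      nlinarith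
    · push Not at hdeg
      obtain ⟨x, hxW, hx⟩ := hdeg
      have hsub : H.filter (fun g => x ∉ g) ⊆ H := filter_subset _ _
      have h1 := ih (W.erase x) (H.filter (fun g => x ∉ g)) (by rw [card_erase_of_mem hxW, hWk]; rfl)
        (h.mono hsub) (by
          intro y hy
          simp only [un, mem_biUnion, mem_filter, id] at hy
          obtain ⟨A, ⟨hA, hxA⟩, hyA⟩ := hy
          exact mem_erase.2 ⟨by rintro rfl; exact hxA hyA, hW (mem_biUnion.2 ⟨A, hA, hyA⟩)⟩)
      have h2 : (at' H x).card + (H.filter (fun g => x ∉ g)).card = H.card :=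
        card_filter_add_card_filter_not (fun g => x ∈ g)
      rw [hWk] at hx
      have h4 : (k + 1) ^ 2 + (6 * e + 2) * (k + 1) = k ^ 2 + (6 * e + 2) * k + (2 * k + 6 * e + 3) := by
        ring
      rw [h4]
      omega

end Pool.Agent.W848.Window
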