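import Pool.Agent.W848.Classes
import Pool.Agent.W848.Window

/-!
# Linear triple systems and every number of edges

A linear 3-graph on `n` vertices in which no `e` edges span at most `e+3` vertices has at most
`8 n^2 / 81 + O(n)` edges.
-/

set_option autoImplicit false

namespace Pool.Agent.W848.Every

open Finset Pool.Agent.W848.TreeAvg Pool.Agent.W848.Star Pool.Agent.W848.Growth
  Pool.Agent.W848.Flags Pool.Agent.W848.Classes Pool.Agent.W848.Window

variable {V : Type*} [DecidableEq V]

/-- the hypotheses of the theorem -/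
structure Free (e : ℕ) (H : Finset (Finset V)) : Prop where
  h3 : ∀ A ∈ H, A.card = 3
  lin : ∀ A ∈ H, ∀ B ∈ H, A ≠ B → (A ∩ B).card ≤ 1
  free : ∀ S ⊆ H, S.card = e → e + 3 < (un S).card

lemma Free.mono {e : ℕ} {H H' : Finset (Finset V)} (h : Free e H) (hs : H' ⊆ H) : Free e H' :=
  ⟨fun A hA => h.h3 A (hs hA), fun A hA B hB => h.lin A (hs hA) B (hs hB),
    fun S hS => h.free S (hS.trans hs)⟩

/-- sparsity from large degrees -/
lemma sparse' {e : ℕ} (he : 3 ≤ e) {H : Finset (Finset V)} (h : Free e H) {W : Finset V}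
    (hW : un H ⊆ W) (hdeg : ∀ x ∈ W, 16 * W.card + 41 * e ≤ 81 * (at' H x).card) : Sp e H where
  h3 := h.h3
  lin := h.lin
  free := h.free
  sp := by
    intro S hS h2 hSe
    by_contra hcon
    have hle : (un S).card ≤ S.card + 2 := by omega
    have hS3 : 3 ≤ S.card := by
      have := un_ge_five h.h3 h.lin hS h2
      omega
    have h6 := un_ge_six h.h3 h.lin hS hS3
    have hg := growth 3 e (by norm_num) H S W hW h.h3
      (fun T hT hTe => by
        have := h.free T hT hTe
        omega) hS (card_pos.1 (by omega)) hSe (by omega)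
    have hsum : 6 * (16 * W.card + 41 * e) ≤ 81 * ∑ x ∈ un S, (at' H x).card := by
      rw [mul_sum]
      calc 6 * (16 * W.card + 41 * e) ≤ (un S).card * (16 * W.card + 41 * e) :=
            Nat.mul_le_mul_right _ h6
        _ = ∑ x ∈ un S, (16 * W.card + 41 * e) := by rw [sum_const, smul_eq_mul]
        _ ≤ _ := sum_le_sum fun x hx => hdeg x
            (hW (biUnion_subset_biUnion_of_subset_left _ hS hx))
    obtain ⟨d, rfl⟩ := Nat.exists_eq_add_of_le he
    have e1 : 3 + d - 2 = d + 1 := by omega
    have e2 : 3 + d - 1 = d + 2 := by omega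
    rw [e1, e2] at hg
    norm_num at hg
    have hg' : (d + 2) * ∑ x ∈ un S, (at' H x).card ≤ (d + 1) * W.card + (d + 2) * (3 * (d + 2)) :=
      hg
    generalize (∑ x ∈ un S, (at' H x).card) = s at hsum hg'
    generalize W.card = w at hsum hg'
    have h7 : (d + 2) * (6 * (16 * w + 41 * (3 + d))) ≤ (d + 2) * (81 * s) :=
      Nat.mul_le_mul_left _ hsum
    nlinarith

/-- the main counting argument -/
theorem bound_of_deg' {e : ℕ} (he : 3 ≤ e) {H : Finset (Finset V)} (h : Free e H) {W : Finset V}
    (hW : un H ⊆ W) (hdeg : ∀ x ∈ W, 16 * W.card + 41 * e ≤ 81 * (at' H x).card) :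
    81 * H.card ≤ 8 * W.card ^ 2 + 3 * W.card := by
  classical
  have hsp : Sp e H := sparse' he h hW hdeg
  rcases H.eq_empty_or_nonempty with rfl | hHne
  · simp
  have hI := nine_inter he hsp hW
  -- Cauchy-Schwarz
  have hdW : ∑ x ∈ W, (at' H x).card = 3 * H.card := by
    simp only [at', card_filter]
    rw [sum_comm]
    have : ∀ A ∈ H, ∑ x ∈ W, (if x ∈ A then 1 else 0) = 3 := by
      intro A hA
      have hAW : A ⊆ W := fun x hx => hW (mem_biUnion.2 ⟨A, hA, hx⟩)
      rw [← card_filter, filter_mem_eq_inter, inter_eq_right.2 hAW, h.h3 A hA]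
    rw [sum_congr rfl this, sum_const, smul_eq_mul, mul_comm]
  have hsq : ∑ x ∈ W, (at' H x).card ^ 2 ≤ 3 * H.card + (inter H).card := by
    have e1 : ∀ x ∈ W, (at' H x).card ^ 2
        = ∑ p ∈ H ×ˢ H, if x ∈ p.1 ∩ p.2 then 1 else 0 := by
      intro x _
      rw [← card_filter, sq, ← card_product]
      congr 1
      ext ⟨A, B⟩
      simp only [at', mem_product, mem_filter, mem_inter]
      tauto
    rw [sum_congr rfl e1, sum_comm]
    have e2 : ∀ p ∈ H ×ˢ H, (∑ x ∈ W, if x ∈ p.1 ∩ p.2 then 1 else 0)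
        ≤ (if p.1 = p.2 then 3 else 0) +
          (if p.1 ≠ p.2 ∧ (p.1 ∩ p.2).Nonempty then 1 else 0) := by
      rintro ⟨A, B⟩ hp
      rw [mem_product] at hp
      obtain ⟨hA, hB⟩ := hp
      dsimp only at hA hB ⊢
      have h1 : (∑ x ∈ W, if x ∈ A ∩ B then 1 else 0) ≤ (A ∩ B).card := by
        rw [← card_filter, filter_mem_eq_inter]
        exact card_le_card inter_subset_right
      by_cases hAB : A = B
      · subst hAB
        rw [inter_self, h.h3 A hA] at h1
        simp only [if_true, ne_eq, not_true, false_and, if_false, add_zero]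
        simpa using h1
      · have h2 := h.lin A hA B hB hAB
        rcases (A ∩ B).eq_empty_or_nonempty with h0 | h0
        · rw [h0]; simp
        · simp only [hAB, if_false, ne_eq, not_false_eq_true, h0, and_self, if_true, zero_add]
          exact h1.trans h2
    refine (sum_le_sum e2).trans ?_
    rw [sum_add_distrib]
    refine add_le_add (le_of_eq ?_) (le_of_eq ?_)
    · rw [← sum_filter, sum_const, smul_eq_mul]
      have : ((H ×ˢ H).filter (fun p => p.1 = p.2)).card = H.card := by
        rw [← card_image_of_injective H (f := fun A => (A, A)) (fun A B hAB => (Prod.mk.inj hAB).1)]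
        congr 1
        ext ⟨A, B⟩
        simp only [mem_filter, mem_product, mem_image, Prod.mk.injEq]
        constructor
        · rintro ⟨⟨hA, _⟩, rfl⟩; exact ⟨A, hA, rfl, rfl⟩
        · rintro ⟨C, hC, rfl, rfl⟩; exact ⟨⟨hC, hC⟩, rfl⟩
      rw [this, mul_comm]
    · rw [inter, card_filter]
  have hCS : (3 * H.card) ^ 2 ≤ W.card * (3 * H.card + (inter H).card) := by
    have := sq_sum_le_card_mul_sum_sq (s := W) (f := fun x => (at' H x).card)
    rw [hdW] at this
    exact this.trans (Nat.mul_le_mul_left _ hsq)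
  have hHpos : 0 < H.card := card_pos.2 hHne
  have hW3 : 3 ≤ W.card := by
    obtain ⟨A, hA⟩ := hHne
    rw [← h.h3 A hA]
    exact card_le_card fun x hx => hW (mem_biUnion.2 ⟨A, hA, hx⟩)
  obtain ⟨w, hw⟩ := Nat.exists_eq_add_of_le hW3
  rw [hw] at hI hCS ⊢
  rw [Nat.add_sub_cancel_left] at hI
  generalize (inter H).card = I at hI hCS
  generalize H.card = N at hI hCS hHpos ⊢
  have hkey : N * (81 * N) ≤ N * (8 * (3 + w) ^ 2 + 3 * (3 + w)) := by nlinarith
  exact Nat.le_of_mul_le_mul_left hkey hHpos

/-- **Main theorem.** -/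
theorem bound' {e : ℕ} (he : 3 ≤ e) (k : ℕ) : ∀ (W : Finset V) (H : Finset (Finset V)),
    W.card = k → Free e H → un H ⊆ W → 81 * H.card ≤ 8 * k ^ 2 + (41 * e + 7) * k := by
  classical
  induction k with
  | zero =>
    intro W H hWk h hW
    have : H = ∅ := by
      rw [eq_empty_iff_forall_notMem]
      intro A hA
      have h1 : A ⊆ W := fun x hx => hW (mem_biUnion.2 ⟨A, hA, hx⟩)
      have h2 := card_le_card h1
      rw [hWk, h.h3 A hA] at h2
      omega
    simp [this]
  | succ k ih =>
    intro W H hWk h hW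
    by_cases hdeg : ∀ x ∈ W, 16 * W.card + 41 * e ≤ 81 * (at' H x).card
    · have := bound_of_deg' he h hW hdeg
      rw [hWk] at this
      nlinarith
    · push Not at hdeg
      obtain ⟨x, hxW, hx⟩ := hdeg
      have hsub : H.filter (fun g => x ∉ g) ⊆ H := filter_subset _ _
      have h1 := ih (W.erase x) (H.filter (fun g => x ∉ g)) (by rw [card_erase_of_mem hxW, hWk]; rfl)
        (h.mono hsub) (by
          intro y hy
          simp only [un, mem_biUnion, mem_filter, id] at hy
          obtain ⟨A, ⟨hA, hxA⟩, hyA⟩ := hy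
          exact mem_erase.2 ⟨by rintro rfl; exact hxA hyA, hW (mem_biUnion.2 ⟨A, hA, hyA⟩)⟩)
      have h2 : (at' H x).card + (H.filter (fun g => x ∉ g)).card = H.card :=
        card_filter_add_card_filter_not (fun g => x ∈ g)
      rw [hWk] at hx
      have h4 : 8 * (k + 1) ^ 2 + (41 * e + 7) * (k + 1)
          = 8 * k ^ 2 + (41 * e + 7) * k + (16 * k + 41 * e + 15) := by
        ring
      rw [h4]
      omega

end Pool.Agent.W848.Every
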