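import Pool.Agent.W848.Star
import Pool.Agent.W848.Growth

/-!
# Flags (edge, component of its link) in sparse linear triple systems
-/

set_option autoImplicit false

namespace Pool.Agent.W848.Flags

open Finset Pool.Agent.W848.TreeAvg Pool.Agent.W848.Star Pool.Agent.W848.Growth

variable {V : Type*} [DecidableEq V]

/-- sparse linear triple systems without `e` edges on `e+3` vertices -/
structure Sp (e : ℕ) (H : Finset (Finset V)) : Prop where
  h3 : ∀ A ∈ H, A.card = 3
  lin : ∀ A ∈ H, ∀ B ∈ H, A ≠ B → (A ∩ B).card ≤ 1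
  sp : ∀ S ⊆ H, 2 ≤ S.card → S.card ≤ e → S.card + 3 ≤ (un S).card
  free : ∀ S ⊆ H, S.card = e → e + 3 < (un S).card

/-- the edges that meet `l` -/
def M (H : Finset (Finset V)) (l : Finset V) : Finset (Finset V) :=
  H.filter (fun b => b ≠ l ∧ (b ∩ l).Nonempty)

/-- the components of the link of `l` -/
def comps (e : ℕ) (H : Finset (Finset V)) (l : Finset V) : Finset (Finset (Finset V)) :=
  (M H l).powerset.filter (fun T => T.Nonempty ∧ T.card + 1 < e ∧ (un T \ l).card = T.card + 1 ∧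
    ∀ b ∈ M H l, b ∉ T → Disjoint (b \ l) (un T))

variable {e : ℕ} {H : Finset (Finset V)}

lemma mem_M {l b : Finset V} : b ∈ M H l ↔ b ∈ H ∧ b ≠ l ∧ (b ∩ l).Nonempty := by
  simp [M]

lemma M_symm {l b : Finset V} (hl : l ∈ H) (hb : b ∈ M H l) : l ∈ M H b := by
  rw [mem_M] at hb ⊢
  exact ⟨hl, hb.2.1.symm, by rw [inter_comm]; exact hb.2.2⟩

lemma Sp.inter_card (h : Sp e H) {l b : Finset V} (hl : l ∈ H) (hb : b ∈ M H l) :
    (b ∩ l).card = 1 := by
  rw [mem_M] at hb
  exact le_antisymm (h.lin b hb.1 l hl hb.2.1) (card_pos.2 hb.2.2)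

lemma Sp.sdiff_card (h : Sp e H) {l b : Finset V} (hl : l ∈ H) (hb : b ∈ M H l) :
    (b \ l).card = 2 := by
  have h1 := card_sdiff_add_card_inter b l
  rw [h.inter_card hl hb, h.h3 b (mem_M.1 hb).1] at h1
  omega

lemma notMem_M_self {l : Finset V} : l ∉ M H l := by
  intro h
  exact (mem_M.1 h).2.1 rfl

/-- the lower bound for families over `l` -/
lemma Sp.over_lower (h : Sp e H) {l : Finset V} (hl : l ∈ H) {T : Finset (Finset V)}
    (hT : T ⊆ M H l) (hne : T.Nonempty) (hTe : T.card + 1 ≤ e) :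
    T.card + 1 ≤ (un T \ l).card := by
  have hlT : l ∉ T := fun hh => notMem_M_self (hT hh)
  have hsub : insert l T ⊆ H := by
    intro b hb
    rw [mem_insert] at hb
    rcases hb with rfl | hb
    · exact hl
    · exact (mem_M.1 (hT hb)).1
  have hc : (insert l T).card = T.card + 1 := card_insert_of_notMem hlT
  have h1 := h.sp _ hsub (by rw [hc]; have := card_pos.2 hne; omega) (by rw [hc]; exact hTe)
  rw [hc, un_insert, ← union_sdiff_self_eq_union, card_union_of_disjoint disjoint_sdiff,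
    h.h3 l hl] at h1
  omega

lemma Sp.comps_cover (h : Sp e H) (he : 3 ≤ e) {l b : Finset V} (hl : l ∈ H) (hb : b ∈ M H l) :
    ∃ T ∈ comps e H l, b ∈ T := by
  classical
  obtain ⟨T, hT, hmax⟩ := exists_max_image
    ((M H l).powerset.filter (fun T => b ∈ T ∧ T.card + 1 ≤ e ∧ (un T \ l).card ≤ T.card + 1))
    (fun T => T.card) ⟨{b}, by
      rw [mem_filter, mem_powerset]
      refine ⟨singleton_subset_iff.2 hb, mem_singleton_self _, by rw [card_singleton]; omega, ?_⟩
      simp only [un, singleton_biUnion, id, card_singleton]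
      rw [h.sdiff_card hl hb]⟩
  rw [mem_filter, mem_powerset] at hT
  obtain ⟨hTM, hbT, hTe, hTf⟩ := hT
  have hne : T.Nonempty := ⟨b, hbT⟩
  have hlT : l ∉ T := fun hh => notMem_M_self (hTM hh)
  have hsub : insert l T ⊆ H := by
    intro b hb
    rw [mem_insert] at hb
    rcases hb with rfl | hb
    · exact hl
    · exact (mem_M.1 (hTM hb)).1
  have hc : (insert l T).card = T.card + 1 := card_insert_of_notMem hlT
  have hlt : T.card + 1 < e := by
    rcases Nat.lt_or_ge (T.card + 1) e with hh | hh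
    · exact hh
    · have heq : (insert l T).card = e := by rw [hc]; omega
      have h1 := h.free _ hsub heq
      rw [un_insert, ← union_sdiff_self_eq_union, card_union_of_disjoint disjoint_sdiff,
        h.h3 l hl] at h1
      omega
  refine ⟨T, ?_, hbT⟩
  rw [comps, mem_filter, mem_powerset]
  refine ⟨hTM, hne, hlt, le_antisymm hTf (h.over_lower hl hTM hne hTe), ?_⟩
  intro b' hb' hb'T
  by_contra hnd
  have hc' : (insert b' T).card = T.card + 1 := card_insert_of_notMem hb'T
  have h1 := hmax (insert b' T) (by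
    rw [mem_filter, mem_powerset]
    refine ⟨insert_subset hb' hTM, mem_insert_of_mem hbT, by rw [hc']; omega, ?_⟩
    rw [un_insert, union_sdiff_distrib, hc']
    have h2 := card_union_add_card_inter (b' \ l) (un T \ l)
    have h3 : 1 ≤ ((b' \ l) ∩ (un T \ l)).card := by
      rw [disjoint_left] at hnd
      push Not at hnd
      obtain ⟨y, hy1, hy2⟩ := hnd
      exact card_pos.2 ⟨y, mem_inter.2 ⟨hy1, mem_sdiff.2 ⟨hy2, (mem_sdiff.1 hy1).2⟩⟩⟩
    rw [h.sdiff_card hl hb'] at h2
    omega)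
  omega

/-- components are connected -/
lemma Sp.comps_conn (h : Sp e H) {l : Finset V} (hl : l ∈ H) {T : Finset (Finset V)}
    (hT : T ∈ comps e H l) {D : Finset (Finset V)} (hD : D ⊆ T) (hDne : D.Nonempty)
    (hDT : D ≠ T) : ∃ b ∈ T, b ∉ D ∧ ¬ Disjoint (b \ l) (un D) := by
  classical
  by_contra hcon
  push Not at hcon
  rw [comps, mem_filter, mem_powerset] at hT
  obtain ⟨hTM, hne, hlt, hTf, -⟩ := hT
  have hTD : (T \ D).Nonempty := by
    rw [sdiff_nonempty]
    exact fun hh => hDT (Subset.antisymm hD hh)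
  have hc := card_sdiff_add_card_eq_card hD
  have h1 := h.over_lower hl (hD.trans hTM) hDne (by omega)
  have h2 := h.over_lower hl (sdiff_subset.trans hTM) hTD (by omega)
  have hdis : Disjoint (un D \ l) (un (T \ D) \ l) := by
    rw [disjoint_left]
    intro y hy1 hy2
    rw [mem_sdiff] at hy1 hy2
    obtain ⟨b, hb, hyb⟩ := mem_biUnion.1 hy2.1
    rw [mem_sdiff] at hb
    have := hcon b hb.1 hb.2
    rw [disjoint_left] at this
    exact this (mem_sdiff.2 ⟨hyb, hy2.2⟩) hy1.1
  have h3 : un T \ l = (un D \ l) ∪ (un (T \ D) \ l) := by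
    rw [← union_sdiff_distrib, ← un_union, union_sdiff_of_subset hD]
  rw [h3, card_union_of_disjoint hdis] at hTf
  omega

lemma Sp.comps_subset (h : Sp e H) {l : Finset V} (hl : l ∈ H) {T T' : Finset (Finset V)}
    (hT : T ∈ comps e H l) (hT' : T' ∈ comps e H l) (hne : (T' ∩ T).Nonempty) : T' ⊆ T := by
  by_contra hcon
  obtain ⟨b, hb, hbD, hnd⟩ := h.comps_conn hl hT' inter_subset_left hne
    (fun hh => hcon (inter_eq_left.1 hh))
  rw [comps, mem_filter, mem_powerset] at hT hT'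
  have hbT : b ∉ T := fun hh => hbD (mem_inter.2 ⟨hb, hh⟩)
  have h1 := hT.2.2.2.2 b (hT'.1 hb) hbT
  exact hnd (disjoint_of_subset_right
    (biUnion_subset_biUnion_of_subset_left _ inter_subset_right) h1)

lemma Sp.comps_eq (h : Sp e H) {l : Finset V} (hl : l ∈ H) {T T' : Finset (Finset V)}
    (hT : T ∈ comps e H l) (hT' : T' ∈ comps e H l) {b : Finset V} (hb : b ∈ T) (hb' : b ∈ T') :
    T = T' :=
  Subset.antisymm (h.comps_subset hl hT' hT ⟨b, mem_inter.2 ⟨hb, hb'⟩⟩)
    (h.comps_subset hl hT hT' ⟨b, mem_inter.2 ⟨hb', hb⟩⟩)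

lemma Sp.comps_eq' (h : Sp e H) {l : Finset V} (hl : l ∈ H) {T T' : Finset (Finset V)}
    (hT : T ∈ comps e H l) (hT' : T' ∈ comps e H l) {y : V} (hyl : y ∉ l) (hy : y ∈ un T)
    (hy' : y ∈ un T') : T = T' := by
  obtain ⟨b, hb, hyb⟩ := mem_biUnion.1 hy'
  refine h.comps_eq hl hT hT' (b := b) ?_ hb
  by_contra hbT
  have hT2 := hT
  have hT2' := hT'
  rw [comps, mem_filter, mem_powerset] at hT2 hT2'
  have h1 := hT2.2.2.2.2 b (hT2'.1 hb) hbT
  rw [disjoint_left] at h1
  exact h1 (mem_sdiff.2 ⟨hyb, hyl⟩) hy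

/-- flags -/
def flags (e : ℕ) (H : Finset (Finset V)) : Finset (Finset V × Finset (Finset V)) :=
  (H ×ˢ H.powerset).filter (fun F => F.2 ∈ comps e H F.1)

lemma mem_flags {F : Finset V × Finset (Finset V)} :
    F ∈ flags e H ↔ F.1 ∈ H ∧ F.2 ∈ comps e H F.1 := by
  simp only [flags, mem_filter, mem_product, mem_powerset]
  constructor
  · rintro ⟨⟨h1, _⟩, h2⟩; exact ⟨h1, h2⟩
  · rintro ⟨h1, h2⟩
    refine ⟨⟨h1, ?_⟩, h2⟩
    rw [comps, mem_filter, mem_powerset] at h2
    exact fun b hb => (mem_M.1 (h2.1 hb)).1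

lemma flags_M {F : Finset V × Finset (Finset V)} (hF : F ∈ flags e H) : F.2 ⊆ M H F.1 := by
  have := (mem_flags.1 hF).2
  rw [comps, mem_filter, mem_powerset] at this
  exact this.1

lemma Sp.flags_eq (h : Sp e H) {F F' : Finset V × Finset (Finset V)} (hF : F ∈ flags e H)
    (hF' : F' ∈ flags e H) (h1 : F.1 = F'.1) {b : Finset V} (hb : b ∈ F.2) (hb' : b ∈ F'.2) :
    F = F' := by
  rw [mem_flags] at hF hF'
  rw [← h1] at hF'
  exact Prod.ext h1 (h.comps_eq hF.1 hF.2 hF'.2 hb hb')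

end Pool.Agent.W848.Flags
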