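import Pool.Agent.W848.TreeAvg

/-!
# Intersecting pairs in tight linear triple systems

A linear 3-graph `T` with `m` edges, `m + 3` vertices, all of whose subfamilies with `k ≥ 2` edges
span at least `k + 3` vertices, has at most `3 m^2 / 4` ordered pairs of intersecting edges.
-/

set_option autoImplicit false

namespace Pool.Agent.W848.Star

open Finset Pool.Agent.W848.TreeAvg

variable {V : Type*} [DecidableEq V]

/-- ordered pairs of different intersecting members -/
def inter (T : Finset (Finset V)) : Finset (Finset V × Finset V) :=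
  (T ×ˢ T).filter (fun p => p.1 ≠ p.2 ∧ (p.1 ∩ p.2).Nonempty)

/-- members containing `x` -/
abbrev at' (T : Finset (Finset V)) (x : V) : Finset (Finset V) := T.filter (fun g => x ∈ g)

lemma meet_bound (F : Finset (Finset V)) (A : Finset V) (hmeet : ∀ B ∈ F, (A ∩ B).Nonempty)
    (hdis : ∀ x ∈ A, (at' F x).card ≤ 1) : F.card ≤ (A ∩ un F).card := by
  classical
  rcases F.eq_empty_or_nonempty with rfl | ⟨B₀, hB₀⟩
  · simp
  obtain ⟨x₀, -⟩ := hmeet B₀ hB₀
  have : Nonempty V := ⟨x₀⟩
  choose! g hg using hmeet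
  refine card_le_card_of_injOn g ?_ ?_
  · intro B hB
    have := hg B hB
    rw [mem_inter] at this
    simp only [mem_coe, mem_inter, un, mem_biUnion, id]
    exact ⟨this.1, B, hB, this.2⟩
  · intro B hB C hC hBC
    have h1 := hg B hB
    have h2 := hg C hC
    rw [mem_inter] at h1 h2
    have h3 := hdis (g B) h1.1
    rw [card_le_one] at h3
    exact h3 B (mem_filter.2 ⟨hB, h1.2⟩) C (mem_filter.2 ⟨hC, by rw [hBC]; exact h2.2⟩)

/-- Turan's theorem for a symmetric irreflexive relation on a finset without five pairwise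
related elements. -/
lemma turan4 {α : Type*} [DecidableEq α] (T : Finset α) (R : α → α → Prop) [DecidableRel R]
    (hs : ∀ a b, R a b → R b a) (hi : ∀ a, ¬ R a a)
    (hK : ∀ s ⊆ T, s.card = 5 → ∃ a ∈ s, ∃ b ∈ s, a ≠ b ∧ ¬ R a b) :
    4 * ((T ×ˢ T).filter (fun p => R p.1 p.2)).card ≤ 3 * T.card ^ 2 := by
  classical
  let G : SimpleGraph {a // a ∈ T} :=
    { Adj := fun a b => R a.1 b.1
      symm := ⟨fun a b h => hs _ _ h⟩
      loopless := ⟨fun a h => hi _ h⟩ }
  have hG : G.CliqueFree (4 + 1) := by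
    intro s hcl
    rw [SimpleGraph.isNClique_iff] at hcl
    obtain ⟨a, ha, b, hb, hab, hR⟩ := hK (s.map (Function.Embedding.subtype _))
      (by intro x hx; simp only [mem_map, Function.Embedding.subtype_apply] at hx
          obtain ⟨y, _, rfl⟩ := hx; exact y.2)
      (by rw [card_map]; exact hcl.2)
    simp only [mem_map, Function.Embedding.subtype_apply] at ha hb
    obtain ⟨a', ha', rfl⟩ := ha
    obtain ⟨b', hb', rfl⟩ := hb
    exact hR (hcl.1 ha' hb' (fun h => hab (by rw [h])))
  have h1 := hG.card_edgeFinset_le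
  have h2 : 2 * 4 * #(SimpleGraph.turanGraph (Fintype.card {a // a ∈ T}) 4).edgeFinset ≤
      (4 - 1) * (Fintype.card {a // a ∈ T}) ^ 2 := SimpleGraph.mul_card_edgeFinset_turanGraph_le
  rw [SimpleGraph.card_edgeFinset_turanGraph] at h2
  have hcT : Fintype.card {a // a ∈ T} = T.card := by simp
  simp only [hcT] at h1 h2
  have h3 : ((T ×ˢ T).filter (fun p => R p.1 p.2)).card = 2 * #G.edgeFinset := by
    rw [← SimpleGraph.sum_degrees_eq_twice_card_edges]
    have e1 : ((T ×ˢ T).filter (fun p => R p.1 p.2)).card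
        = ∑ a ∈ T, (T.filter (fun b => R a b)).card := by
      rw [card_filter, sum_product]
      refine sum_congr rfl fun a _ => ?_
      rw [card_filter]
    rw [e1, ← sum_coe_sort T (fun a => (T.filter (fun b => R a b)).card)]
    refine sum_congr rfl fun a _ => ?_
    rw [SimpleGraph.degree, SimpleGraph.neighborFinset_eq_filter]
    symm
    rw [← card_map (Function.Embedding.subtype _)]
    congr 1
    ext b
    simp only [mem_map, mem_filter, mem_univ, true_and, Function.Embedding.subtype_apply]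
    constructor
    · rintro ⟨c, hc, rfl⟩; exact ⟨c.2, hc⟩
    · rintro ⟨hb, hab⟩; exact ⟨⟨b, hb⟩, hab, rfl⟩
  rw [h3]
  calc 4 * (2 * #G.edgeFinset) = 2 * 4 * #G.edgeFinset := by ring
    _ ≤ _ := Nat.mul_le_mul_left _ h1
    _ ≤ _ := h2
    _ = _ := by norm_num

lemma eq_of_two {T : Finset (Finset V)} (hlin : ∀ A ∈ T, ∀ B ∈ T, A ≠ B → (A ∩ B).card ≤ 1)
    {A B : Finset V} (hA : A ∈ T) (hB : B ∈ T) {x y : V} (hxy : x ≠ y) (hxA : x ∈ A) (hyA : y ∈ A)
    (hxB : x ∈ B) (hyB : y ∈ B) : A = B := by
  by_contra h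
  have := hlin A hA B hB h
  rw [card_le_one] at this
  exact hxy (this x (mem_inter.2 ⟨hxA, hxB⟩) y (mem_inter.2 ⟨hyA, hyB⟩))

/-- A line not through `x` meets lines through `x` in different points. -/
lemma at_card_le_one {T : Finset (Finset V)}
    (hlin : ∀ A ∈ T, ∀ B ∈ T, A ≠ B → (A ∩ B).card ≤ 1)
    {F : Finset (Finset V)} (hF : F ⊆ T) {x : V} (hx : ∀ B ∈ F, x ∈ B) {A : Finset V}
    (hxA : x ∉ A) : ∀ y ∈ A, (at' F y).card ≤ 1 := by
  intro y hy
  rw [card_le_one]
  intro B hB C hC
  rw [mem_filter] at hB hC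
  exact eq_of_two hlin (hF hB.1) (hF hC.1) (x := x) (y := y) (by rintro rfl; exact hxA hy)
    (hx B hB.1) hB.2 (hx C hC.1) hC.2

/-- pencils span `1 + 2 d` points -/
lemma un_pencil {F : Finset (Finset V)} (h3 : ∀ A ∈ F, A.card = 3) {x : V}
    (hx : ∀ B ∈ F, x ∈ B) : (un F).card ≤ 1 + 2 * F.card := by
  have h1 : un F ⊆ {x} ∪ F.biUnion (fun B => B.erase x) := by
    intro y hy
    simp only [un, mem_biUnion, id] at hy
    obtain ⟨B, hB, hyB⟩ := hy
    by_cases h : y = x
    · subst h; exact mem_union_left _ (mem_singleton_self _)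
    · exact mem_union_right _ (mem_biUnion.2 ⟨B, hB, mem_erase.2 ⟨h, hyB⟩⟩)
  calc (un F).card ≤ _ := card_le_card h1
    _ ≤ 1 + (F.biUnion (fun B => B.erase x)).card := by
        refine (card_union_le _ _).trans ?_
        rw [card_singleton]
    _ ≤ 1 + ∑ B ∈ F, (B.erase x).card := Nat.add_le_add_left card_biUnion_le _
    _ = 1 + 2 * F.card := by
        rw [sum_congr rfl (fun B hB => by rw [card_erase_of_mem (hx B hB), h3 B hB])]
        simp [mul_comm]

lemma un_pencil_lower {F : Finset (Finset V)} (h3 : ∀ A ∈ F, A.card = 3)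
    (hlin : ∀ A ∈ F, ∀ B ∈ F, A ≠ B → (A ∩ B).card ≤ 1) (hne : F.Nonempty) {x : V}
    (hx : ∀ B ∈ F, x ∈ B) : 1 + 2 * F.card ≤ (un F).card := by
  classical
  have h1 : insert x (F.biUnion (fun B => B.erase x)) ⊆ un F := by
    intro y hy
    rw [mem_insert, mem_biUnion] at hy
    rcases hy with rfl | ⟨B, hB, hy⟩
    · obtain ⟨B, hB⟩ := hne
      exact mem_biUnion.2 ⟨B, hB, hx B hB⟩
    · exact mem_biUnion.2 ⟨B, hB, mem_of_mem_erase hy⟩
  have h2 := card_le_card h1
  rw [card_insert_of_notMem (by
    rw [mem_biUnion]; rintro ⟨B, _, hB⟩; exact notMem_erase _ _ hB), card_biUnion (by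
    intro A hA B hB hAB
    change Disjoint (A.erase x) (B.erase x)
    rw [disjoint_left]
    intro y hyA hyB
    rw [mem_erase] at hyA hyB
    exact hAB (eq_of_two hlin hA hB hyA.1.symm (hx A hA) hyA.2 (hx B hB) hyB.2))] at h2
  rw [sum_congr rfl (fun B hB => by rw [card_erase_of_mem (hx B hB), h3 B hB])] at h2
  simp only [sum_const, smul_eq_mul] at h2
  omega

/-- Five pairwise intersecting lines have a common point. -/
lemma five_common {s : Finset (Finset V)} (h3 : ∀ A ∈ s, A.card = 3)
    (hlin : ∀ A ∈ s, ∀ B ∈ s, A ≠ B → (A ∩ B).card ≤ 1) (hs : s.card = 5)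
    (hsp : 8 ≤ (un s).card)
    (hint : ∀ A ∈ s, ∀ B ∈ s, A ≠ B → (A ∩ B).Nonempty) :
    ∃ x, ∀ A ∈ s, x ∈ A := by
  classical
  by_contra hcon
  push Not at hcon
  -- a line not in `F` that meets all lines of `F`
  have key : ∀ F ⊆ s, 3 ≤ F.card → ∀ A ∈ s, A ∉ F → (∀ y ∈ A, (at' F y).card ≤ 1) →
      F.card = 3 ∧ A ⊆ un F := by
    intro F hF hF3 A hA hAF hdis
    have h1 := meet_bound F A (fun B hB => hint A hA B (hF hB) (by rintro rfl; exact hAF hB)) hdis
    have h2 : (A ∩ un F).card ≤ A.card := card_le_card inter_subset_left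
    have h4 := h3 A hA
    refine ⟨by omega, ?_⟩
    have h5 : A ∩ un F = A := eq_of_subset_of_card_le inter_subset_left (by omega)
    exact inter_eq_left.1 h5
  -- the case of a point of degree at least three
  have hdeg : ∀ x, (at' s x).card ≤ 2 := by
    intro x
    by_contra hx
    push Not at hx
    have hF : at' s x ⊆ s := filter_subset _ _
    have hxF : ∀ B ∈ at' s x, x ∈ B := fun B hB => (mem_filter.1 hB).2
    obtain ⟨A₀, hA₀, hxA₀⟩ := hcon x
    have hk := fun A (hA : A ∈ s) (hxA : x ∉ A) => key (at' s x) hF hx A hA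
      (fun h => hxA (hxF A h)) (at_card_le_one hlin hF hxF hxA)
    have hcard := (hk A₀ hA₀ hxA₀).1
    have hsub : un s ⊆ un (at' s x) := by
      intro y hy
      simp only [un, mem_biUnion, id] at hy
      obtain ⟨A, hA, hyA⟩ := hy
      by_cases hxA : x ∈ A
      · exact mem_biUnion.2 ⟨A, mem_filter.2 ⟨hA, hxA⟩, hyA⟩
      · exact (hk A hA hxA).2 hyA
    have h1 := card_le_card hsub
    have h2 := un_pencil (fun A hA => h3 A (hF hA)) hxF
    omega
  -- all degrees at most two
  obtain ⟨F, hF, hFc⟩ := exists_subset_card_eq (show 3 ≤ s.card by omega)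
  have hAF : ∀ A ∈ s, A ∉ F → A ⊆ un F := by
    intro A hA hAF
    refine (key F hF hFc.ge A hA hAF ?_).2
    intro y hy
    have h1 : insert A (at' F y) ⊆ at' s y := by
      intro B hB
      rw [mem_insert] at hB
      rcases hB with rfl | hB
      · exact mem_filter.2 ⟨hA, hy⟩
      · rw [mem_filter] at hB; exact mem_filter.2 ⟨hF hB.1, hB.2⟩
    have h2 : (at' F y).card + 1 ≤ (at' s y).card := by
      rw [← card_insert_of_notMem (fun h => hAF (mem_filter.1 h).1)]
      exact card_le_card h1
    have := hdeg y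
    omega
  have hsub : un s ⊆ un F := by
    intro y hy
    simp only [un, mem_biUnion, id] at hy
    obtain ⟨A, hA, hyA⟩ := hy
    by_cases h : A ∈ F
    · exact mem_biUnion.2 ⟨A, h, hyA⟩
    · exact hAF A hA h hyA
  have h1 := card_le_card hsub
  -- `un F` has at most seven points
  obtain ⟨A, hA⟩ := card_pos.1 (show 0 < F.card by omega)
  have h2 := meet_bound (F.erase A) A
    (fun B hB => hint A (hF hA) B (hF (mem_of_mem_erase hB)) (ne_of_mem_erase hB).symm) (by
      intro y hy
      have h1 : insert A (at' (F.erase A) y) ⊆ at' s y := by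
        intro B hB
        rw [mem_insert] at hB
        rcases hB with rfl | hB
        · exact mem_filter.2 ⟨hF hA, hy⟩
        · rw [mem_filter] at hB; exact mem_filter.2 ⟨hF (mem_of_mem_erase hB.1), hB.2⟩
      have h2 : (at' (F.erase A) y).card + 1 ≤ (at' s y).card := by
        rw [← card_insert_of_notMem (fun h => notMem_erase A F (mem_filter.1 h).1)]
        exact card_le_card h1
      have := hdeg y
      omega)
  rw [card_erase_of_mem hA, hFc] at h2
  have h4 : un F = A ∪ un (F.erase A) := by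
    rw [← un_insert, insert_erase hA]
  have h5 := card_union_add_card_inter A (un (F.erase A))
  have h6 : (un (F.erase A)).card ≤ 6 := by
    calc (un (F.erase A)).card ≤ ∑ B ∈ F.erase A, B.card := card_biUnion_le
      _ = ∑ B ∈ F.erase A, 3 := sum_congr rfl fun B hB => h3 B (hF (mem_of_mem_erase hB))
      _ = 6 := by rw [sum_const, card_erase_of_mem hA, hFc]; rfl
  have h7 := h3 A (hF hA)
  rw [← h4] at h5
  omega

lemma inter_le_sum {T : Finset (Finset V)} :
    (inter T).card ≤ ∑ y ∈ un T, (at' T y).card * ((at' T y).card - 1) := by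
  classical
  have h1 : inter T ⊆ (un T).biUnion (fun y => (at' T y).offDiag) := by
    rintro ⟨A, B⟩ h
    simp only [inter, mem_filter, mem_product] at h
    obtain ⟨⟨hA, hB⟩, hAB, y, hy⟩ := h
    rw [mem_inter] at hy
    refine mem_biUnion.2 ⟨y, mem_biUnion.2 ⟨A, hA, hy.1⟩, mem_offDiag.2 ⟨?_, ?_, hAB⟩⟩
    · exact mem_filter.2 ⟨hA, hy.1⟩
    · exact mem_filter.2 ⟨hB, hy.2⟩
  calc (inter T).card ≤ _ := card_le_card h1
    _ ≤ ∑ y ∈ un T, ((at' T y).offDiag).card := card_biUnion_le
    _ = _ := by
        refine sum_congr rfl fun y _ => ?_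
        rw [offDiag_card]
        generalize (at' T y).card = c
        rcases c with _ | c
        · rfl
        · rw [Nat.add_sub_cancel, Nat.mul_succ]; omega

lemma sum_deg {T : Finset (Finset V)} (h3 : ∀ A ∈ T, A.card = 3) :
    ∑ y ∈ un T, (at' T y).card = 3 * T.card := by
  classical
  have e1 : ∑ y ∈ un T, (at' T y).card = ∑ A ∈ T, ((un T).filter (fun y => y ∈ A)).card := by
    simp only [at', card_filter]
    rw [sum_comm]
  rw [e1]
  have e2 : ∀ A ∈ T, ((un T).filter (fun y => y ∈ A)).card = 3 := by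
    intro A hA
    have hAT : A ⊆ un T := fun y hy => mem_biUnion.2 ⟨A, hA, hy⟩
    rw [filter_mem_eq_inter, inter_eq_right.2 hAT, h3 A hA]
  rw [sum_congr rfl e2, sum_const, smul_eq_mul, mul_comm]

lemma arith (R t I : ℤ) (hR5 : 5 ≤ R) (ht : R ≤ t + 2)
    (hc1 : I ≤ R * (R - 1) + t * (t - 1) + 6 * t) (hc2 : I ≤ R * (2 * (R + t) - 3)) :
    4 * I ≤ 3 * (R + t) ^ 2 := by
  by_cases hcase : 4 * (R * (2 * (R + t) - 3)) ≤ 3 * (R + t) ^ 2
  · linarith
  · push Not at hcase
    have h53 : 3 * t < 5 * R := by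
      by_contra hh
      push Not at hh
      have h1 : 0 ≤ (R + t) * (3 * t - 5 * R) := mul_nonneg (by linarith) (by linarith)
      nlinarith
    have hprod : 0 ≤ (t + 2 - R) * (5 * R - 3 * t) :=
      mul_nonneg (by linarith) (by linarith)
    have hfin : 4 * (R * (R - 1) + t * (t - 1) + 6 * t) ≤ 3 * (R + t) ^ 2 := by
      rcases (show R = 5 ∨ 6 ≤ R by omega) with h5 | h6
      · subst h5
        have h8 : t ≤ 8 := by omega
        have h3 : 3 ≤ t := by omega
        have h1 : 0 ≤ (t - 3) * (8 - t) := mul_nonneg (by linarith) (by linarith)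
        linarith
      · have h1 : 0 ≤ t * (R - 6) := mul_nonneg (by linarith) (by linarith)
        have h2 : 0 ≤ R * R := mul_self_nonneg R
        linarith
    linarith

/-- **The bound for tight systems.** -/
theorem star (T : Finset (Finset V)) (h3 : ∀ A ∈ T, A.card = 3)
    (hlin : ∀ A ∈ T, ∀ B ∈ T, A ≠ B → (A ∩ B).card ≤ 1)
    (hsp : ∀ S ⊆ T, S.card = 5 → 8 ≤ (un S).card)
    (htight : (un T).card = T.card + 3) :
    4 * (inter T).card ≤ 3 * T.card ^ 2 := by
  classical
  by_cases hR : ∃ x, 5 ≤ (at' T x).card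
  · -- a point of large degree
    obtain ⟨x₀, hx₀⟩ := hR
    have hne : (un T).Nonempty := by
      rw [← card_pos]; omega
    obtain ⟨x, hxT, hxmax⟩ := exists_max_image (un T) (fun y => (at' T y).card) hne
    have hx5 : 5 ≤ (at' T x).card := by
      refine hx₀.trans (hxmax x₀ ?_)
      obtain ⟨A, hA⟩ := card_pos.1 (show 0 < (at' T x₀).card by omega)
      rw [mem_filter] at hA
      exact mem_biUnion.2 ⟨A, hA.1, hA.2⟩
    set P := at' T x with hP
    set Q := T.filter (fun g => x ∉ g) with hQ
    set R := P.card with hRdef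
    set t := Q.card with htdef
    have hPT : P ⊆ T := filter_subset _ _
    have hm : T.card = R + t := (card_filter_add_card_filter_not (fun g => x ∈ g)).symm
    have hPx : ∀ B ∈ P, x ∈ B := fun B hB => (mem_filter.1 hB).2
    -- lower bound for `t`
    have hPne : P.Nonempty := by rw [← card_pos]; omega
    have hlinP : ∀ A ∈ P, ∀ B ∈ P, A ≠ B → (A ∩ B).card ≤ 1 :=
      fun A hA B hB => hlin A (hPT hA) B (hPT hB)
    have ht : R ≤ t + 2 := by
      have h1 := un_pencil_lower (fun A hA => h3 A (hPT hA)) hlinP hPne hPx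
      have h2 : un P ⊆ un T := biUnion_subset_biUnion_of_subset_left _ hPT
      have h4 := card_le_card h2
      omega
    have hcross : ∀ A ∈ Q, (P.filter (fun B => (A ∩ B).Nonempty)).card ≤ 3 := by
      intro A hA
      rw [hQ, mem_filter] at hA
      have h1 := meet_bound (P.filter (fun B => (A ∩ B).Nonempty)) A
        (fun B hB => (mem_filter.1 hB).2)
        (at_card_le_one hlin ((filter_subset _ _).trans hPT)
          (fun B hB => hPx B (mem_filter.1 hB).1) hA.2)
      have h2 : (A ∩ un (P.filter (fun B => (A ∩ B).Nonempty))).card ≤ A.card :=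
        card_le_card inter_subset_left
      have h4 := h3 A hA.1
      omega
    have hc1 : (inter T).card ≤ R * (R - 1) + t * (t - 1) + 6 * t := by
      have hsub : inter T ⊆ (P.offDiag ∪ Q.offDiag) ∪
          (Q.biUnion (fun A => (P.filter (fun B => (A ∩ B).Nonempty)).image (fun B => (A, B))) ∪
           Q.biUnion (fun A => (P.filter (fun B => (A ∩ B).Nonempty)).image (fun B => (B, A)))) := by
        rintro ⟨A, B⟩ h
        simp only [inter, mem_filter, mem_product] at h
        obtain ⟨⟨hA, hB⟩, hAB, hi⟩ := h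
        by_cases hxA : x ∈ A
        · have hAP : A ∈ P := mem_filter.2 ⟨hA, hxA⟩
          by_cases hxB : x ∈ B
          · exact mem_union_left _ (mem_union_left _
              (mem_offDiag.2 ⟨hAP, mem_filter.2 ⟨hB, hxB⟩, hAB⟩))
          · refine mem_union_right _ (mem_union_right _ (mem_biUnion.2
              ⟨B, mem_filter.2 ⟨hB, hxB⟩, mem_image.2 ⟨A, mem_filter.2 ⟨hAP, ?_⟩, rfl⟩⟩))
            rw [inter_comm]; exact hi
        · have hAQ : A ∈ Q := mem_filter.2 ⟨hA, hxA⟩
          by_cases hxB : x ∈ B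
          · exact mem_union_right _ (mem_union_left _ (mem_biUnion.2
              ⟨A, hAQ, mem_image.2 ⟨B, mem_filter.2 ⟨mem_filter.2 ⟨hB, hxB⟩, hi⟩, rfl⟩⟩))
          · exact mem_union_left _ (mem_union_right _
              (mem_offDiag.2 ⟨hAQ, mem_filter.2 ⟨hB, hxB⟩, hAB⟩))
      have hb1 : (Q.biUnion (fun A => (P.filter (fun B => (A ∩ B).Nonempty)).image
          (fun B => (A, B)))).card ≤ 3 * t := by
        calc _ ≤ ∑ A ∈ Q, ((P.filter (fun B => (A ∩ B).Nonempty)).image
              (fun B => (A, B))).card := card_biUnion_le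
          _ ≤ ∑ A ∈ Q, 3 := sum_le_sum fun A hA => card_image_le.trans (hcross A hA)
          _ = 3 * t := by rw [sum_const, smul_eq_mul, mul_comm]
      have hb2 : (Q.biUnion (fun A => (P.filter (fun B => (A ∩ B).Nonempty)).image
          (fun B => (B, A)))).card ≤ 3 * t := by
        calc _ ≤ ∑ A ∈ Q, ((P.filter (fun B => (A ∩ B).Nonempty)).image
              (fun B => (B, A))).card := card_biUnion_le
          _ ≤ ∑ A ∈ Q, 3 := sum_le_sum fun A hA => card_image_le.trans (hcross A hA)
          _ = 3 * t := by rw [sum_const, smul_eq_mul, mul_comm]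
      have hod : ∀ F : Finset (Finset V), F.offDiag.card = F.card * (F.card - 1) := by
        intro F
        rw [offDiag_card]
        generalize F.card = c
        rcases c with _ | c
        · rfl
        · rw [Nat.add_sub_cancel, Nat.mul_succ]; omega
      calc (inter T).card ≤ _ := card_le_card hsub
        _ ≤ (P.offDiag.card + Q.offDiag.card) + (3 * t + 3 * t) :=
            (card_union_le _ _).trans (add_le_add (card_union_le _ _)
              ((card_union_le _ _).trans (add_le_add hb1 hb2)))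
        _ = _ := by rw [hod, hod]; ring
    have hc2 : (inter T).card + R * (T.card + 3) ≤ R * (3 * T.card) := by
      have h1 := inter_le_sum (T := T)
      have h2 : ∑ y ∈ un T, (at' T y).card * ((at' T y).card - 1)
          ≤ ∑ y ∈ un T, R * ((at' T y).card - 1) :=
        sum_le_sum fun y hy => Nat.mul_le_mul_right _ (hxmax y hy)
      have h4 : ∑ y ∈ un T, R * ((at' T y).card - 1) + ∑ y ∈ un T, R
          = ∑ y ∈ un T, R * (at' T y).card := by
        rw [← sum_add_distrib]
        refine sum_congr rfl fun y hy => ?_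
        have hpos : 1 ≤ (at' T y).card := by
          obtain ⟨A, hA, hyA⟩ := mem_biUnion.1 hy
          exact card_pos.2 ⟨A, mem_filter.2 ⟨hA, hyA⟩⟩
        obtain ⟨c, hc⟩ := Nat.exists_eq_add_of_le hpos
        rw [hc, Nat.add_sub_cancel_left]; ring
      rw [← mul_sum, ← mul_sum (s := un T) (f := fun y => (at' T y).card), sum_deg h3, sum_const,
        smul_eq_mul, htight] at h4
      rw [← mul_sum] at h2
      calc (inter T).card + R * (T.card + 3)
          ≤ R * ∑ y ∈ un T, ((at' T y).card - 1) + (T.card + 3) * R := by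
            rw [mul_comm R (T.card + 3)]
            exact Nat.add_le_add_right (h1.trans h2) _
        _ = _ := h4
    -- arithmetic
    rw [hm] at hc2 ⊢
    have hR1 : (R : ℤ) * ((R : ℤ) - 1) = ((R * (R - 1) : ℕ) : ℤ) := by
      rw [Nat.cast_mul, Nat.cast_sub (by omega)]; norm_num
    have ht1 : (t : ℤ) * ((t : ℤ) - 1) = ((t * (t - 1) : ℕ) : ℤ) := by
      rcases Nat.eq_zero_or_pos t with h | h
      · rw [h]; simp
      · rw [Nat.cast_mul, Nat.cast_sub h]; norm_num
    have hfin := arith (R : ℤ) (t : ℤ) ((inter T).card : ℤ) (by exact_mod_cast hx5)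
      (by exact_mod_cast ht)
      (by rw [hR1, ht1]; exact_mod_cast hc1)
      (by
        have : ((inter T).card : ℤ) + R * (R + t + 3) ≤ R * (3 * (R + t)) := by
          exact_mod_cast hc2
        linarith)
    exact_mod_cast hfin
  · -- all degrees at most four: Turan
    push Not at hR
    refine turan4 T (fun A B => A ≠ B ∧ (A ∩ B).Nonempty)
      (fun A B h => ⟨h.1.symm, by rw [inter_comm]; exact h.2⟩) (fun A h => h.1 rfl) ?_
    intro s hs hs5
    by_contra hcon
    push Not at hcon
    obtain ⟨x, hx⟩ := five_common (fun A hA => h3 A (hs hA))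
      (fun A hA B hB => hlin A (hs hA) B (hs hB)) hs5 (hsp s hs hs5)
      (fun A hA B hB hAB => (hcon A hA B hB hAB).2)
    have h1 : s ⊆ at' T x := fun A hA => mem_filter.2 ⟨hs hA, hx A hA⟩
    have h2 := card_le_card h1
    have := hR x
    omega

end Pool.Agent.W848.Star
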