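import Mathlib

/-!
# Averaging over tree components of links

If no `e` edges of an `r`-uniform hypergraph on `n` vertices have union of size at most
`(r-2)e+3`, then it has at most `(e-2)/(r^2((r-2)(e-2)+1)) n^2 + O(n)` edges.
-/

set_option autoImplicit false

namespace Pool.Agent.W848.TreeAvg

open Finset

variable {V : Type*} [DecidableEq V] [Fintype V]

/-- union of a family -/
abbrev un (S : Finset (Finset V)) : Finset V := S.biUnion id

omit [Fintype V] in
lemma un_union (S T : Finset (Finset V)) : un (S ∪ T) = un S ∪ un T := by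
  ext x; simp [un, mem_biUnion, mem_union, or_and_right, exists_or]

omit [Fintype V] in
lemma un_insert (g : Finset V) (T : Finset (Finset V)) : un (insert g T) = g ∪ un T := by
  simp [un]

/-- Choice of a heavy edge: an edge whose vertex degrees sum to at least `r^2 |H| / n`. -/
lemma exists_heavy_edge (r : ℕ) (H : Finset (Finset V)) (hH : ∀ g ∈ H, g.card = r)
    (hne : H.Nonempty) :
    ∃ l ∈ H, r ^ 2 * H.card ≤ Fintype.card V * ∑ x ∈ l, (H.filter (fun g => x ∈ g)).card := by
  classical
  set d : V → ℕ := fun x => (H.filter (fun g => x ∈ g)).card with hd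
  -- sum of degrees
  have h1 : ∑ x, d x = r * H.card := by
    have : ∑ x, d x = ∑ g ∈ H, g.card := by
      simp only [hd, card_filter]
      rw [sum_comm]
      refine sum_congr rfl fun g _ => ?_
      rw [← card_filter, filter_univ_mem]
    rw [this, sum_congr rfl hH, sum_const, smul_eq_mul, mul_comm]
  have h2 : ∑ l ∈ H, ∑ x ∈ l, d x = ∑ x, d x ^ 2 := by
    have e1 : ∀ l ∈ H, ∑ x ∈ l, d x = ∑ x, if x ∈ l then d x else 0 := by
      intro l _
      rw [← sum_filter]
      simp
    rw [sum_congr rfl e1, sum_comm]
    refine sum_congr rfl fun x _ => ?_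
    rw [← sum_filter, sum_const, smul_eq_mul, sq]
  have h3 : (∑ x, d x) ^ 2 ≤ Fintype.card V * ∑ x, d x ^ 2 := by
    have := sq_sum_le_card_mul_sum_sq (s := (univ : Finset V)) (f := d)
    simpa using this
  by_contra hcon
  push Not at hcon
  have h4 : ∑ l ∈ H, Fintype.card V * ∑ x ∈ l, d x < ∑ l ∈ H, r ^ 2 * H.card :=
    sum_lt_sum_of_nonempty hne hcon
  rw [← mul_sum, h2, sum_const, smul_eq_mul] at h4
  rw [h1] at h3
  nlinarith

omit [Fintype V] in
/-- The key growth statement. `U` is the union of a family `S` with `|U| ≤ (r-2)|S|+2`, closed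
in the sense that every edge outside `S` meets `U` in at most one vertex, and `S` cannot be
enlarged to a family of size at most `e` with the same defect. -/
lemma forest_bound (r e : ℕ) (hr : 2 ≤ r) (H S : Finset (Finset V)) (hH : ∀ g ∈ H, g.card = r)
    (hSH : S ⊆ H) (hSn : S.Nonempty)
    (hfree : ∀ T ⊆ H, T.card = e → (r - 2) * e + 3 < (un T).card)
    (hScard : S.card < e) (hSf : (un S).card ≤ (r - 2) * S.card + 2)
    (hmax : ∀ T ⊆ H, S ⊆ T → S.card < T.card → T.card ≤ e →
      (r - 2) * T.card + 2 < (un T).card)
    (G : Finset (Finset V)) (hGH : G ⊆ H) (hGS : Disjoint S G)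
    (hGU : ∀ g ∈ G, (g ∩ un S).card = 1) :
    ((r - 2) * (e - 2) + 1) * G.card ≤ (e - 2) * (un G \ un S).card := by
  classical
  induction hn : G.card using Nat.strong_induction_on generalizing G with
  | _ k ih =>
    rcases G.eq_empty_or_nonempty with rfl | hGne
    · simp at hn; subst hn; simp
    -- the families to be considered
    set P : Finset (Finset (Finset V)) := G.powerset.filter
      (fun T => (un T \ un S).card ≤ (r - 2) * T.card + 1 ∧ S.card + T.card ≤ e ∧ T.Nonempty)
      with hP
    obtain ⟨g₀, hg₀⟩ := hGne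
    have hout : ∀ g ∈ G, (g \ un S).card = r - 1 := by
      intro g hg
      have := card_sdiff_add_card_inter g (un S)
      rw [hGU g hg, hH g (hGH hg)] at this
      omega
    have hP0 : {g₀} ∈ P := by
      rw [hP, mem_filter, mem_powerset]
      refine ⟨singleton_subset_iff.2 hg₀, ?_, ?_, singleton_nonempty _⟩
      · have := hout g₀ hg₀
        simp only [un, singleton_biUnion, id, card_singleton]
        rw [this]; omega
      · rw [card_singleton]; omega
    obtain ⟨T, hTP, hTmax⟩ := exists_max_image P (fun T => T.card) ⟨_, hP0⟩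
    rw [hP, mem_filter, mem_powerset] at hTP
    obtain ⟨hTG, hTf, hTe, hTne⟩ := hTP
    have hdis : Disjoint S T := disjoint_of_subset_right hTG hGS
    have hcardST : (S ∪ T).card = S.card + T.card := card_union_of_disjoint hdis
    have hunST : (un (S ∪ T)).card = (un S).card + (un T \ un S).card := by
      rw [un_union, ← union_sdiff_self_eq_union, card_union_of_disjoint disjoint_sdiff]
    have hSTH : S ∪ T ⊆ H := union_subset hSH (hTG.trans hGH)
    have hTlt : S.card + T.card < e := by
      rcases Nat.lt_or_ge (S.card + T.card) e with h | h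
      · exact h
      · have heq : S.card + T.card = e := le_antisymm hTe h
        have := hfree (S ∪ T) hSTH (by rw [hcardST, heq])
        rw [hunST] at this
        have h2 : (r - 2) * e = (r - 2) * S.card + (r - 2) * T.card := by
          rw [← heq, mul_add]
        omega
    have hTge : (r - 2) * T.card + 1 ≤ (un T \ un S).card := by
      have h1 : 1 ≤ T.card := card_pos.2 hTne
      have := hmax (S ∪ T) hSTH subset_union_left (by rw [hcardST]; omega)
        (by rw [hcardST]; omega)
      rw [hunST, hcardST, mul_add] at this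
      omega
    -- edges outside `T` avoid the vertices of `T`
    have hdisj : ∀ g ∈ G \ T, Disjoint (g \ un S) (un T \ un S) := by
      intro g hg
      rw [mem_sdiff] at hg
      by_contra hnd
      have hins : insert g T ∈ P := by
        rw [hP, mem_filter, mem_powerset]
        have hcard : (insert g T).card = T.card + 1 := card_insert_of_notMem hg.2
        refine ⟨insert_subset hg.1 hTG, ?_, by rw [hcard]; omega, insert_nonempty _ _⟩
        rw [un_insert, union_sdiff_distrib, hcard]
        have h1 := card_union_add_card_inter (g \ un S) (un T \ un S)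
        have h2 : 1 ≤ ((g \ un S) ∩ (un T \ un S)).card := by
          rw [Nat.one_le_iff_ne_zero, Ne, card_eq_zero, ← disjoint_iff_inter_eq_empty]
          exact hnd
        rw [hout g hg.1] at h1
        have h3 : (r - 2) * (T.card + 1) = (r - 2) * T.card + (r - 2) := by ring
        omega
      have := hTmax _ hins
      rw [card_insert_of_notMem hg.2] at this
      omega
    have hTpos : 1 ≤ T.card := card_pos.2 hTne
    have hih := ih (G \ T).card (by
        rw [← hn]; exact card_lt_card (sdiff_ssubset hTG hTne)) (G \ T)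
        (sdiff_subset.trans hGH) (disjoint_of_subset_right sdiff_subset hGS)
        (fun g hg => hGU g (mem_sdiff.1 hg).1) rfl
    have hsplit : (un G \ un S).card = (un (G \ T) \ un S).card + (un T \ un S).card := by
      rw [← card_union_of_disjoint]
      · congr 1
        rw [← union_sdiff_distrib, ← un_union, sdiff_union_of_subset hTG]
      · rw [disjoint_left]
        intro x hx hxT
        simp only [mem_sdiff, un, mem_biUnion, id] at hx
        obtain ⟨⟨g, hg, hxg⟩, hxS⟩ := hx
        have := hdisj g (mem_sdiff.2 hg)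
        rw [disjoint_left] at this
        exact this (mem_sdiff.2 ⟨hxg, by simpa [un] using hxS⟩) hxT
    have hcardG : G.card = (G \ T).card + T.card := by
      rw [card_sdiff_add_card_eq_card hTG]
    have hSpos : 1 ≤ S.card := card_pos.2 hSn
    have hTe2 : T.card ≤ e - 2 := by omega
    rw [hsplit, ← hn, hcardG]
    have hTT : ((r - 2) * (e - 2) + 1) * T.card ≤ (e - 2) * (un T \ un S).card := by
      calc ((r - 2) * (e - 2) + 1) * T.card
          = (e - 2) * ((r - 2) * T.card) + T.card := by ring
        _ ≤ (e - 2) * ((r - 2) * T.card) + (e - 2) := by omega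
        _ = (e - 2) * ((r - 2) * T.card + 1) := by ring
        _ ≤ _ := Nat.mul_le_mul_left _ hTge
    rw [mul_add, mul_add]
    exact add_le_add hih hTT

/-- **Main bound.** -/
theorem main_bound (r e : ℕ) (hr : 2 ≤ r) (he : 2 ≤ e) (H : Finset (Finset V))
    (hH : ∀ g ∈ H, g.card = r)
    (hfree : ∀ T ⊆ H, T.card = e → (r - 2) * e + 3 < (un T).card) :
    ((r - 2) * (e - 2) + 1) * (r ^ 2 * H.card) ≤
      (e - 2) * Fintype.card V ^ 2 +
        ((r - 2) * (e - 2) + 1) * (r * (e - 1)) * Fintype.card V := by
  classical
  rcases H.eq_empty_or_nonempty with rfl | hne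
  · simp
  obtain ⟨l, hl, hheavy⟩ := exists_heavy_edge r H hH hne
  -- choose the maximal family
  set P : Finset (Finset (Finset V)) := H.powerset.filter
      (fun T => l ∈ T ∧ T.card ≤ e ∧ (un T).card ≤ (r - 2) * T.card + 2) with hP
  have hP0 : {l} ∈ P := by
    rw [hP, mem_filter, mem_powerset]
    refine ⟨singleton_subset_iff.2 hl, mem_singleton_self _, by rw [card_singleton]; omega, ?_⟩
    simp only [un, singleton_biUnion, id, card_singleton]
    rw [hH l hl]; omega
  obtain ⟨S, hSP, hSmax⟩ := exists_max_image P (fun T => T.card) ⟨_, hP0⟩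
  rw [hP, mem_filter, mem_powerset] at hSP
  obtain ⟨hSH, hlS, hSe, hSf⟩ := hSP
  have hSlt : S.card < e := by
    rcases Nat.lt_or_ge S.card e with h | h
    · exact h
    · have heq : S.card = e := le_antisymm hSe h
      have := hfree S hSH heq
      rw [heq] at hSf
      omega
  have hmax : ∀ T ⊆ H, S ⊆ T → S.card < T.card → T.card ≤ e →
      (r - 2) * T.card + 2 < (un T).card := by
    intro T hTH hST hlt hTe
    by_contra hcon
    have hTP : T ∈ P := by
      rw [hP, mem_filter, mem_powerset]
      exact ⟨hTH, hST hlS, hTe, not_lt.1 hcon⟩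
    exact absurd (hSmax T hTP) (not_le.2 hlt)
  -- closedness
  have hclosed : ∀ g ∈ H, g ∉ S → (g ∩ un S).card ≤ 1 := by
    intro g hg hgS
    by_contra hcon
    have h1 := hmax (insert g S) (insert_subset hg hSH) (subset_insert _ _)
      (by rw [card_insert_of_notMem hgS]; omega) (by rw [card_insert_of_notMem hgS]; omega)
    rw [un_insert, card_insert_of_notMem hgS] at h1
    have h2 := card_union_add_card_inter g (un S)
    rw [hH g hg] at h2
    have h3 : (r - 2) * (S.card + 1) = (r - 2) * S.card + (r - 2) := by ring
    omega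
  set G : Finset (Finset V) := H.filter (fun g => g ∉ S ∧ (g ∩ un S).card = 1) with hG
  have hforest := forest_bound r e hr H S hH hSH ⟨l, hlS⟩ hfree hSlt hSf hmax G
    (filter_subset _ _)
    (by rw [disjoint_left]; intro g hgS hgG; exact (mem_filter.1 hgG).2.1 hgS)
    (fun g hg => (mem_filter.1 hg).2.2)
  have hlU : l ⊆ un S := by
    intro x hx; exact mem_biUnion.2 ⟨l, hlS, hx⟩
  -- the degrees of the vertices of `l`
  have hdeg : ∑ x ∈ l, (H.filter (fun g => x ∈ g)).card ≤ G.card + r * S.card := by
    have e1 : ∀ x ∈ l, (H.filter (fun g => x ∈ g)).card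
        ≤ (G.filter (fun g => x ∈ g)).card + S.card := by
      intro x hx
      have hsub : H.filter (fun g => x ∈ g) ⊆ G.filter (fun g => x ∈ g) ∪ S := by
        intro g hg
        rw [mem_filter] at hg
        by_cases hgS : g ∈ S
        · exact mem_union_right _ hgS
        · refine mem_union_left _ (mem_filter.2 ⟨mem_filter.2 ⟨hg.1, hgS, ?_⟩, hg.2⟩)
          refine le_antisymm (hclosed g hg.1 hgS) ?_
          exact card_pos.2 ⟨x, mem_inter.2 ⟨hg.2, hlU hx⟩⟩
      exact (card_le_card hsub).trans (card_union_le _ _)
    have e2 : ∑ x ∈ l, (G.filter (fun g => x ∈ g)).card ≤ G.card := by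
      have : ∑ x ∈ l, (G.filter (fun g => x ∈ g)).card = ∑ g ∈ G, (g ∩ l).card := by
        simp only [card_filter]
        rw [sum_comm]
        refine sum_congr rfl fun g _ => ?_
        rw [← card_filter, filter_mem_eq_inter, inter_comm]
      rw [this]
      calc ∑ g ∈ G, (g ∩ l).card ≤ ∑ g ∈ G, 1 := by
            refine sum_le_sum fun g hg => ?_
            rw [← (mem_filter.1 hg).2.2]
            exact card_le_card (inter_subset_inter_left hlU)
        _ = G.card := by simp
    calc ∑ x ∈ l, (H.filter (fun g => x ∈ g)).card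
        ≤ ∑ x ∈ l, ((G.filter (fun g => x ∈ g)).card + S.card) := sum_le_sum e1
      _ = ∑ x ∈ l, (G.filter (fun g => x ∈ g)).card + r * S.card := by
          rw [sum_add_distrib, sum_const, hH l hl, smul_eq_mul]
      _ ≤ _ := Nat.add_le_add_right e2 _
  have hUn : (un G \ un S).card ≤ Fintype.card V := card_le_univ _
  have hS1 : S.card ≤ e - 1 := by omega
  calc ((r - 2) * (e - 2) + 1) * (r ^ 2 * H.card)
      ≤ ((r - 2) * (e - 2) + 1) * (Fintype.card V * (G.card + r * S.card)) :=
        Nat.mul_le_mul_left _ (hheavy.trans (Nat.mul_le_mul_left _ hdeg))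
    _ = Fintype.card V * (((r - 2) * (e - 2) + 1) * G.card) +
          ((r - 2) * (e - 2) + 1) * (r * S.card) * Fintype.card V := by ring
    _ ≤ Fintype.card V * ((e - 2) * Fintype.card V) +
          ((r - 2) * (e - 2) + 1) * (r * (e - 1)) * Fintype.card V := by
        refine add_le_add (Nat.mul_le_mul_left _ (hforest.trans (Nat.mul_le_mul_left _ hUn))) ?_
        exact Nat.mul_le_mul_right _ (Nat.mul_le_mul_left _ (Nat.mul_le_mul_left _ hS1))
    _ = _ := by ring

end Pool.Agent.W848.TreeAvg
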